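import Pool.Agent.TH193.FReg.Defs

/-! General lemmas on local rings of points. -/

open scoped KaehlerDifferential

namespace Pool.Agent.TH193.FReg

universe u

variable {k : Type u} [Field k] {K : Type u} [Field K] [Algebra k K]

namespace IsLocalRingAt

variable {A S : Subalgebra k K} {P : Ideal A}

theorem le (h : IsLocalRingAt A P S) : A ≤ S := fun a ha =>
  (h.2 a).2 ⟨⟨a, ha⟩, 1, h.1.one_notMem, by simp⟩

theorem inv_mem (h : IsLocalRingAt A P S) {a : A} (ha : a ∉ P) : (a : K)⁻¹ ∈ S :=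
  (h.2 _).2 ⟨1, a, ha, by simp⟩

theorem ne_zero (_h : IsLocalRingAt A P S) {a : A} (ha : a ∉ P) : (a : K) ≠ 0 := fun h0 =>
  ha (by
    have : a = 0 := Subtype.ext h0
    rw [this]
    exact P.zero_mem)

theorem notMem_of_inv (h : IsLocalRingAt A P S) {a : A} (ha0 : (a : K) ≠ 0)
    (ha : (a : K)⁻¹ ∈ S) : a ∉ P := by
  intro haP
  obtain ⟨b, s, hs, e⟩ := (h.2 _).1 ha
  have hs0 := h.ne_zero hs
  have h1 : (s : K) = b * a := by
    field_simp at e
    linear_combination e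
  have h2 : s = b * a := Subtype.ext h1
  exact hs (h2 ▸ P.mul_mem_left b haP)

theorem notMem_iff (h : IsLocalRingAt A P S) {a : A} :
    a ∉ P ↔ (a : K) ≠ 0 ∧ (a : K)⁻¹ ∈ S :=
  ⟨fun ha => ⟨h.ne_zero ha, h.inv_mem ha⟩, fun ha => h.notMem_of_inv ha.1 ha.2⟩

theorem isLocalRing (h : IsLocalRingAt A P S) : IsLocalRing S := by
  have key : ∀ f : S, IsUnit f ↔ (f : K) ≠ 0 ∧ (f : K)⁻¹ ∈ S := by
    intro f
    constructor
    · rintro ⟨u, rfl⟩
      have h1 : ((u : S) : K) * ((u⁻¹ : Sˣ) : S) = 1 := by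
        have := u.mul_inv
        exact congrArg (fun z : S => (z : K)) this
      refine ⟨left_ne_zero_of_mul_eq_one h1, ?_⟩
      rw [inv_eq_of_mul_eq_one_right h1]
      exact ((u⁻¹ : Sˣ) : S).2
    · rintro ⟨h0, h1⟩
      exact ⟨⟨f, ⟨_, h1⟩, Subtype.ext (mul_inv_cancel₀ h0), Subtype.ext (inv_mul_cancel₀ h0)⟩, rfl⟩
  refine IsLocalRing.of_isUnit_or_isUnit_one_sub_self ?_
  intro f
  rw [key, key]
  obtain ⟨a, s, hs, e⟩ := (h.2 f).1 f.2
  have hs0 := h.ne_zero hs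
  by_cases ha : a ∈ P
  · right
    have h1 : s - a ∉ P := fun h' => hs (by simpa using P.add_mem h' ha)
    have h2 := h.ne_zero h1
    have h3 : ((1 - f : S) : K) = ((s - a : A) : K) / s := by
      push_cast
      rw [e]
      field_simp
    rw [h3]
    refine ⟨div_ne_zero h2 hs0, ?_⟩
    rw [inv_div]
    exact (h.2 _).2 ⟨s, s - a, h1, rfl⟩
  · left
    rw [e]
    refine ⟨div_ne_zero (h.ne_zero ha) hs0, ?_⟩
    rw [inv_div]
    exact (h.2 _).2 ⟨s, a, ha, rfl⟩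

theorem ext' (h : IsLocalRingAt A P S) {T : Subalgebra k K} (h' : IsLocalRingAt A P T) :
    S = T := by
  ext f
  rw [h.2, h'.2]

end IsLocalRingAt

theorem isUnit_iff {S : Subalgebra k K} (f : S) :
    IsUnit f ↔ (f : K) ≠ 0 ∧ (f : K)⁻¹ ∈ S := by
  constructor
  · rintro ⟨u, rfl⟩
    have h1 : ((u : S) : K) * ((u⁻¹ : Sˣ) : S) = 1 := by
      have := u.mul_inv
      exact congrArg (fun z : S => (z : K)) this
    refine ⟨left_ne_zero_of_mul_eq_one h1, ?_⟩
    rw [inv_eq_of_mul_eq_one_right h1]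
    exact ((u⁻¹ : Sˣ) : S).2
  · rintro ⟨h0, h1⟩
    exact ⟨⟨f, ⟨_, h1⟩, Subtype.ext (mul_inv_cancel₀ h0), Subtype.ext (inv_mul_cancel₀ h0)⟩, rfl⟩

/-- The ideal of the elements of `A` which are not units of the local ring `S`. -/
def center (A S : Subalgebra k K) (hAS : A ≤ S) [IsLocalRing S] : Ideal A :=
  (IsLocalRing.maximalIdeal S).comap (Subalgebra.inclusion hAS)

theorem mem_center {A S : Subalgebra k K} (hAS : A ≤ S) [IsLocalRing S] {a : A} :
    a ∉ center A S hAS ↔ (a : K) ≠ 0 ∧ (a : K)⁻¹ ∈ S := by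
  rw [center, Ideal.mem_comap, IsLocalRing.mem_maximalIdeal, mem_nonunits_iff, not_not]
  exact isUnit_iff _

theorem isLocalRingAt_of {A S : Subalgebra k K} (hAS : A ≤ S) [hS : IsLocalRing S]
    (h : ∀ f ∈ S, ∃ a ∈ A, ∃ s ∈ A, s ≠ 0 ∧ s⁻¹ ∈ S ∧ f = a / s) :
    IsLocalRingAt A (center A S hAS) S := by
  refine ⟨Ideal.IsPrime.comap _, fun f => ⟨fun hf => ?_, ?_⟩⟩
  · obtain ⟨a, ha, s, hs, hs0, hs1, e⟩ := h f hf
    exact ⟨⟨a, ha⟩, ⟨s, hs⟩, (mem_center hAS).2 ⟨hs0, hs1⟩, e⟩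
  · rintro ⟨a, s, hs, rfl⟩
    have h1 := (mem_center hAS).1 hs
    rw [div_eq_mul_inv]
    exact S.mul_mem (hAS a.2) h1.2

/-- A ring between. -/
theorem isLocalRingAt_of_le {A B S : Subalgebra k K} {P : Ideal B} (hB : IsLocalRingAt B P S)
    (hAS : A ≤ S) [IsLocalRing S]
    (h : ∀ f ∈ B, ∃ a ∈ A, ∃ s ∈ A, s ≠ 0 ∧ s⁻¹ ∈ S ∧ f = a / s) :
    IsLocalRingAt A (center A S hAS) S := by
  refine isLocalRingAt_of hAS fun f hf => ?_
  obtain ⟨b, s, hs, rfl⟩ := (hB.2 f).1 hf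
  obtain ⟨a1, ha1, s1, hs1, hs10, hs11, e1⟩ := h b b.2
  obtain ⟨a2, ha2, s2, hs2, hs20, hs21, e2⟩ := h s s.2
  have h3 := hB.notMem_iff.1 hs
  have h4 : a2 ≠ 0 := by
    intro h0
    rw [h0, zero_div] at e2
    exact h3.1 e2
  refine ⟨a1 * s2, A.mul_mem ha1 hs2, s1 * a2, A.mul_mem hs1 ha2, mul_ne_zero hs10 h4, ?_, ?_⟩
  · rw [mul_inv]
    refine S.mul_mem hs11 ?_
    have h5 : a2⁻¹ = (s : K)⁻¹ * s2⁻¹ := by
      rw [e2]
      field_simp
    rw [h5]
    exact S.mul_mem h3.2 hs21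
  · rw [e1, e2]
    field_simp

/-- The local rings of one affine variety dominated by a valuation ring agree. -/
theorem le_of_dominates {V : ValuationSubring K} {B S T : Subalgebra k K} {Q : Ideal B}
    (hT : IsLocalRingAt B Q T) (hVS : Dominates V S) (hVT : Dominates V T) (hBS : B ≤ S) :
    T ≤ S := by
  intro f hf
  obtain ⟨a, s, hs, rfl⟩ := (hT.2 f).1 hf
  have h1 := hVT.1 _ (hT.inv_mem hs)
  rw [div_eq_mul_inv]
  exact S.mul_mem (hBS a.2) (hVS.2 _ (hBS s.2) h1)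

/-- The localisation of an affine variety at the center of a valuation ring. -/
theorem exists_center {V : ValuationSubring K} {A : Subalgebra k K} (hA : ∀ f ∈ A, f ∈ V) :
    ∃ S, IsPoint A S ∧ Dominates V S := by
  let g : A →+* V := {
    toFun := fun a => ⟨a, hA a a.2⟩
    map_one' := rfl
    map_mul' := fun _ _ => rfl
    map_zero' := rfl
    map_add' := fun _ _ => rfl }
  let P : Ideal A := (IsLocalRing.maximalIdeal V).comap g
  have hP : P.IsPrime := Ideal.IsPrime.comap _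
  have hmem : ∀ a : A, a ∉ P ↔ (a : K) ≠ 0 ∧ (a : K)⁻¹ ∈ V := by
    intro a
    rw [Ideal.mem_comap, IsLocalRing.mem_maximalIdeal, mem_nonunits_iff, not_not]
    constructor
    · rintro ⟨u, hu⟩
      have h1 : ((u : V) : K) * ((u⁻¹ : Vˣ) : V) = 1 := by
        have := u.mul_inv
        exact congrArg (fun z : V => (z : K)) this
      have h2 : (a : K) = ((u : V) : K) := congrArg (fun z : V => (z : K)) hu.symm
      rw [h2]
      refine ⟨left_ne_zero_of_mul_eq_one h1, ?_⟩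
      rw [inv_eq_of_mul_eq_one_right h1]
      exact ((u⁻¹ : Vˣ) : V).2
    · rintro ⟨h0, h1⟩
      exact ⟨⟨g a, ⟨_, h1⟩, Subtype.ext (mul_inv_cancel₀ h0), Subtype.ext (inv_mul_cancel₀ h0)⟩,
        rfl⟩
  have h1P : (1 : A) ∉ P := hP.one_notMem
  let S : Subalgebra k K := {
    carrier := {f | ∃ a s : A, s ∉ P ∧ f = (a : K) / (s : K)}
    mul_mem' := by
      rintro _ _ ⟨a, s, hs, rfl⟩ ⟨b, t, ht, rfl⟩
      refine ⟨a * b, s * t, fun h => ?_, ?_⟩
      · rcases hP.mem_or_mem h with h | h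
        · exact hs h
        · exact ht h
      · push_cast
        rw [div_mul_div_comm]
    add_mem' := by
      rintro _ _ ⟨a, s, hs, rfl⟩ ⟨b, t, ht, rfl⟩
      refine ⟨a * t + s * b, s * t, fun h => ?_, ?_⟩
      · rcases hP.mem_or_mem h with h | h
        · exact hs h
        · exact ht h
      · push_cast
        rw [div_add_div _ _ ((hmem s).1 hs).1 ((hmem t).1 ht).1]
    algebraMap_mem' := fun c => ⟨algebraMap k A c, 1, h1P, by
      change algebraMap k K c = algebraMap k K c / ((1 : A) : K)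
      simp⟩ }
  have hS : IsLocalRingAt A P S := ⟨hP, fun f => Iff.rfl⟩
  refine ⟨S, ⟨P, hS⟩, ?_, ?_⟩
  · rintro _ ⟨a, s, hs, rfl⟩
    rw [div_eq_mul_inv]
    exact V.mul_mem _ _ (hA a a.2) ((hmem s).1 hs).2
  · rintro f ⟨a, s, hs, rfl⟩ hinv
    by_cases h0 : (a : K) = 0
    · rw [h0]
      simp
    · have h2 : a ∉ P := by
        rw [hmem]
        refine ⟨h0, ?_⟩
        have h3 : (a : K)⁻¹ = ((a : K) / s)⁻¹ * (s : K)⁻¹ := by
          have := ((hmem s).1 hs).1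
          field_simp
        rw [h3]
        exact V.mul_mem _ _ hinv ((hmem s).1 hs).2
      rw [inv_div]
      exact ⟨s, a, h2, rfl⟩

end Pool.Agent.TH193.FReg
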