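import Pool.Agent.TH193.FReg.Geo

/-! The charts of the toric resolution of `x y = z ^ p`. -/

open MvPolynomial
open scoped KaehlerDifferential

namespace Pool.Agent.TH193.FReg

universe u

/-- A field is algebraic over the coordinate rings of its affine models. -/
theorem isAlgebraic_of_frac {k K : Type u} [Field k] [Field K] [Algebra k K]
    {A : Subalgebra k K} (h : ∀ f : K, ∃ a b : A, (b : K) ≠ 0 ∧ f = (a : K) / (b : K)) :
    Algebra.IsAlgebraic A K := by
  refine ⟨fun f => ?_⟩
  obtain ⟨a, b, hb, rfl⟩ := h f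
  refine ⟨Polynomial.C b * Polynomial.X - Polynomial.C a, ?_, ?_⟩
  · intro h0
    have h1 := congrArg (fun q => Polynomial.coeff q 1) h0
    simp only [Polynomial.coeff_sub, Polynomial.coeff_C_mul, Polynomial.coeff_X_one, mul_one,
      Polynomial.coeff_C, one_ne_zero, if_false, sub_zero, Polynomial.coeff_zero] at h1
    exact hb (by rw [h1]; rfl)
  · rw [map_sub, map_mul, Polynomial.aeval_C, Polynomial.aeval_X, Polynomial.aeval_C]
    change (b : K) * ((a : K) / b) - a = 0
    field_simp
    ring

section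

variable (k : Type u) [Field k] (N : ℕ) (K : Type u) [Field K] [Algebra k K]
  [Algebra (MvPolynomial (Fin (N + 2)) k) K] [IsScalarTower k (MvPolynomial (Fin (N + 2)) k) K]
  [IsFractionRing (MvPolynomial (Fin (N + 2)) k) K]

theorem trdeg_eq : Algebra.trdeg k K = (N + 2 : ℕ) := by
  have h1 : IsTranscendenceBasis k (X : Fin (N + 2) → MvPolynomial (Fin (N + 2)) k) :=
    IsTranscendenceBasis.mvPolynomial _ _
  have : Algebra.IsAlgebraic (MvPolynomial (Fin (N + 2)) k) K :=
    IsLocalization.isAlgebraic _ (nonZeroDivisors (MvPolynomial (Fin (N + 2)) k))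
  have h2 := h1.algebraMap_comp (A := K)
  have h3 := h2.lift_cardinalMk_eq_trdeg
  simpa using h3.symm

/-- `x / z ^ j` -/
noncomputable def ww (j : ℕ) : K := xx k N K / zz k N K ^ j

/-- `z ^ (j + 1) / x` -/
noncomputable def vv (j : ℕ) : K := zz k N K ^ (j + 1) / xx k N K

/-- coordinates of the charts -/
noncomputable def gen (j : ℕ) : Fin (N + 2) → K :=
  Fin.cons (ww k N K j) (Fin.cons (vv k N K j) (tt k N K))

/-- the charts -/
noncomputable def chart (j : ℕ) : Subalgebra k K := Algebra.adjoin k (Set.range (gen k N K j))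

theorem gen_mem (j : ℕ) (i : Fin (N + 2)) : gen k N K j i ∈ chart k N K j :=
  Algebra.subset_adjoin ⟨i, rfl⟩

theorem ww_mem (j : ℕ) : ww k N K j ∈ chart k N K j := gen_mem k N K j 0

theorem vv_mem (j : ℕ) : vv k N K j ∈ chart k N K j := gen_mem k N K j 1

theorem tt_mem_chart (j : ℕ) (i : Fin N) : tt k N K i ∈ chart k N K j :=
  gen_mem k N K j i.succ.succ

theorem wv_eq (j : ℕ) : ww k N K j * vv k N K j = zz k N K := by
  have h1 := xx_ne k N K
  have h2 := zz_ne k N K
  unfold ww vv
  rw [pow_succ]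
  field_simp

theorem xx_eq (j : ℕ) : xx k N K = ww k N K j * zz k N K ^ j := by
  have h2 := zz_ne k N K
  unfold ww
  field_simp

theorem yy_eq' (p j : ℕ) (hj : j < p) : yy k N K p = vv k N K j * zz k N K ^ (p - 1 - j) := by
  have h1 := xx_ne k N K
  unfold vv yy
  rw [div_mul_eq_mul_div, ← pow_add]
  congr 2
  omega

theorem ww_ne (j : ℕ) : ww k N K j ≠ 0 :=
  div_ne_zero (xx_ne k N K) (pow_ne_zero _ (zz_ne k N K))

theorem vv_ne (j : ℕ) : vv k N K j ≠ 0 :=
  div_ne_zero (pow_ne_zero _ (zz_ne k N K)) (xx_ne k N K)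

/-- A subalgebra contains a chart if it contains its coordinates. -/
theorem chart_le {j : ℕ} {S : Subalgebra k K} (hw : ww k N K j ∈ S) (hv : vv k N K j ∈ S)
    (ht : ∀ i, tt k N K i ∈ S) : chart k N K j ≤ S := by
  refine Algebra.adjoin_le ?_
  rintro _ ⟨i, rfl⟩
  refine Fin.cases hw (fun i => ?_) i
  refine Fin.cases hv (fun i => ?_) i
  exact ht i

theorem zz_mem_chart (j : ℕ) : zz k N K ∈ chart k N K j := by
  rw [← wv_eq k N K j]
  exact Subalgebra.mul_mem _ (ww_mem k N K j) (vv_mem k N K j)

theorem RR_le_chart (p j : ℕ) (hj : j < p) : RR k N K p ≤ chart k N K j := by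
  rw [RR_eq_adjoin k N K p (by omega)]
  refine Algebra.adjoin_le ?_
  have hz := zz_mem_chart k N K j
  rintro _ ((rfl | rfl | rfl) | ⟨i, rfl⟩)
  · rw [xx_eq k N K j]
    exact Subalgebra.mul_mem _ (ww_mem k N K j) (Subalgebra.pow_mem _ hz _)
  · exact hz
  · rw [yy_eq' k N K p j hj]
    exact Subalgebra.mul_mem _ (vv_mem k N K j) (Subalgebra.pow_mem _ hz _)
  · exact tt_mem_chart k N K j i

theorem isAffineVariety_chart (p j : ℕ) (hj : j < p) : IsAffineVariety (chart k N K j) := by
  refine ⟨Subalgebra.fg_def.2 ⟨_, Set.finite_range _, rfl⟩, fun f => ?_⟩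
  obtain ⟨a, b, hb, e⟩ := RR_frac k N K p (by omega) f
  exact ⟨⟨a, RR_le_chart k N K p j hj a.2⟩, ⟨b, RR_le_chart k N K p j hj b.2⟩, hb, e⟩

theorem gen_algebraicIndependent (j : ℕ) : AlgebraicIndependent k (gen k N K j) := by
  have : Algebra.IsAlgebraic (Algebra.adjoin k (Set.range (gen k N K j))) K :=
    isAlgebraic_of_frac (isAffineVariety_chart k N K (j + 1) j (Nat.lt_succ_self j)).2
  refine (Algebra.IsAlgebraic.isTranscendenceBasis_of_lift_le_trdeg_of_finite k (gen k N K j)
    ?_).1
  rw [trdeg_eq k N K]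
  simp

/-- the charts are affine spaces -/
noncomputable def chartEquiv (j : ℕ) : MvPolynomial (Fin (N + 2)) k ≃ₐ[k] chart k N K j :=
  (gen_algebraicIndependent k N K j).aevalEquiv

theorem chartEquiv_apply (j : ℕ) (f : MvPolynomial (Fin (N + 2)) k) :
    (chartEquiv k N K j f : K) = aeval (gen k N K j) f := by
  unfold chartEquiv
  exact (gen_algebraicIndependent k N K j).algebraMap_aevalEquiv f

theorem formallySmooth_chart (j : ℕ) : Algebra.FormallySmooth k (chart k N K j) :=
  Algebra.FormallySmooth.of_equiv (chartEquiv k N K j)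

/-- Compare two charts inside a ring `T`. -/
theorem chart_le_of {i j : ℕ} {T B : Subalgebra k K} (hi : chart k N K i ≤ T)
    (hj : chart k N K j ≤ T) (hB : chart k N K i ≤ B)
    (hinv : ∀ b ∈ B, b⁻¹ ∈ T → b⁻¹ ∈ B) : chart k N K j ≤ B := by
  have hz0 := zz_ne k N K
  have hx0 := xx_ne k N K
  have ht : ∀ l, tt k N K l ∈ B := fun l => hB (tt_mem_chart k N K i l)
  have hzB : zz k N K ∈ B := hB (zz_mem_chart k N K i)
  have hzT : zz k N K ∈ T := hi (zz_mem_chart k N K i)
  have hwT := hj (ww_mem k N K j)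
  have hvT := hj (vv_mem k N K j)
  have hwT' := hi (ww_mem k N K i)
  have hvT' := hi (vv_mem k N K i)
  have hwB := hB (ww_mem k N K i)
  have hvB := hB (vv_mem k N K i)
  rcases lt_trichotomy i j with h | h | h
  · obtain ⟨d, rfl⟩ := Nat.exists_eq_add_of_le h
    rcases Nat.eq_zero_or_pos d with rfl | hd
    · -- adjacent charts
      have h1 : (vv k N K i)⁻¹ = ww k N K (i + 1 + 0) := by
        unfold vv ww
        rw [inv_div, add_zero]
      have h2 : (vv k N K i)⁻¹ ∈ B := hinv _ hvB (h1 ▸ hwT)
      refine chart_le k N K (h1 ▸ h2) ?_ ht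
      have h3 : vv k N K (i + 1 + 0) = zz k N K * vv k N K i := by
        unfold vv
        rw [add_zero, pow_succ (zz k N K) (i + 1)]
        ring
      rw [h3]
      exact B.mul_mem hzB hvB
    · -- `z` is invertible
      have h1 : (zz k N K)⁻¹ ∈ T := by
        have h2 : vv k N K i * ww k N K (i + 1 + d) = (zz k N K ^ d)⁻¹ := by
          unfold vv ww
          rw [pow_add (zz k N K) (i + 1) d]
          field_simp
        obtain ⟨e, rfl⟩ := Nat.exists_eq_add_of_le' hd
        have h3 : (zz k N K)⁻¹ = zz k N K ^ e * (vv k N K i * ww k N K (i + 1 + (e + 1))) := by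
          rw [h2, pow_succ]
          field_simp
        rw [h3]
        exact T.mul_mem (T.pow_mem hzT _) (T.mul_mem hvT' hwT)
      have h1B : (zz k N K)⁻¹ ∈ B := hinv _ hzB h1
      have h4 : (ww k N K i)⁻¹ ∈ B := by
        refine hinv _ hwB ?_
        have h5 : (ww k N K i)⁻¹ = vv k N K i * (zz k N K)⁻¹ := by
          rw [← wv_eq k N K i]
          have := ww_ne k N K i
          have := vv_ne k N K i
          field_simp
        rw [h5]
        exact T.mul_mem hvT' h1
      have h5 : (vv k N K i)⁻¹ ∈ B := by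
        have h5 : (vv k N K i)⁻¹ = ww k N K i * (zz k N K)⁻¹ := by
          rw [← wv_eq k N K i]
          have := ww_ne k N K i
          have := vv_ne k N K i
          field_simp
        rw [h5]
        exact B.mul_mem hwB h1B
      refine chart_le k N K ?_ ?_ ht
      · have h6 : ww k N K (i + 1 + d) = (vv k N K i)⁻¹ * (zz k N K)⁻¹ ^ d := by
          unfold vv ww
          rw [pow_add (zz k N K) (i + 1) d, inv_pow]
          field_simp
        rw [h6]
        exact B.mul_mem h5 (B.pow_mem h1B _)
      · have h6 : vv k N K (i + 1 + d) = vv k N K i * zz k N K ^ (d + 1) := by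
          unfold vv
          rw [show i + 1 + d + 1 = (i + 1) + (d + 1) by ring, pow_add (zz k N K) (i + 1) (d + 1)]
          field_simp
        rw [h6]
        exact B.mul_mem hvB (B.pow_mem hzB _)
  · rw [← h]; exact hB
  · obtain ⟨d, rfl⟩ := Nat.exists_eq_add_of_le h
    rcases Nat.eq_zero_or_pos d with rfl | hd
    · have h1 : (ww k N K (j + 1 + 0))⁻¹ = vv k N K j := by
        unfold vv ww
        rw [inv_div, add_zero]
      have h2 : vv k N K j ∈ B := h1 ▸ hinv _ hwB (h1 ▸ hvT)
      refine chart_le k N K ?_ h2 ht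
      have h3 : ww k N K j = zz k N K * ww k N K (j + 1 + 0) := by
        unfold ww
        rw [add_zero, pow_succ (zz k N K) j]
        field_simp
      rw [h3]
      exact B.mul_mem hzB hwB
    · have h1 : (zz k N K)⁻¹ ∈ T := by
        have h2 : vv k N K j * ww k N K (j + 1 + d) = (zz k N K ^ d)⁻¹ := by
          unfold vv ww
          rw [pow_add (zz k N K) (j + 1) d]
          field_simp
        obtain ⟨e, rfl⟩ := Nat.exists_eq_add_of_le' hd
        have h3 : (zz k N K)⁻¹ = zz k N K ^ e * (vv k N K j * ww k N K (j + 1 + (e + 1))) := by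
          rw [h2, pow_succ]
          field_simp
        rw [h3]
        exact T.mul_mem (T.pow_mem hzT _) (T.mul_mem hvT hwT')
      have h1B : (zz k N K)⁻¹ ∈ B := hinv _ hzB h1
      have h5 : (ww k N K (j + 1 + d))⁻¹ ∈ B := by
        have h5 : (ww k N K (j + 1 + d))⁻¹ = vv k N K (j + 1 + d) * (zz k N K)⁻¹ := by
          rw [← wv_eq k N K (j + 1 + d)]
          have := ww_ne k N K (j + 1 + d)
          have := vv_ne k N K (j + 1 + d)
          field_simp
        rw [h5]
        exact B.mul_mem hvB h1B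
      refine chart_le k N K ?_ ?_ ht
      · have h6 : ww k N K j = ww k N K (j + 1 + d) * zz k N K ^ (d + 1) := by
          unfold ww
          rw [show j + 1 + d = j + (d + 1) by ring, pow_add (zz k N K) j (d + 1)]
          field_simp
        rw [h6]
        exact B.mul_mem hwB (B.pow_mem hzB _)
      · have h6 : vv k N K j = (ww k N K (j + 1 + d))⁻¹ * (zz k N K)⁻¹ ^ d := by
          unfold vv ww
          rw [pow_add (zz k N K) (j + 1) d, inv_pow]
          field_simp
        rw [h6]
        exact B.mul_mem h5 (B.pow_mem h1B _)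

end

end Pool.Agent.TH193.FReg
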