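import Mathlib

/-!
# Varieties as models of their function field, differential forms, strong F-regularity

A variety over a field `k` with function field `K` is described, in Zariski's language of models
(Zariski-Samuel, Commutative Algebra II, VI.17), by the local rings of its points, which are
subrings of `K`.
-/

open scoped KaehlerDifferential

namespace Pool.Agent.TH193.FReg

universe u

variable {k : Type u} [Field k] {K : Type u} [Field K] [Algebra k K]

/-- `S ⊆ K` is the local ring of the affine variety `Spec A` (`A ⊆ K`) at its point `P`, that is
the localisation of `A` at the prime ideal `P`. -/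
def IsLocalRingAt (A : Subalgebra k K) (P : Ideal A) (S : Subalgebra k K) : Prop :=
  P.IsPrime ∧ ∀ f : K, f ∈ S ↔ ∃ a s : A, s ∉ P ∧ f = (a : K) / (s : K)

/-- `S ⊆ K` is the local ring of a (scheme theoretic) point of the affine variety `Spec A`. -/
def IsPoint (A S : Subalgebra k K) : Prop :=
  ∃ P : Ideal A, IsLocalRingAt A P S

/-- `S ⊆ K` is the local ring of a closed point of the affine variety `Spec A`. -/
def IsClosedPoint (A S : Subalgebra k K) : Prop :=
  ∃ P : Ideal A, P.IsMaximal ∧ IsLocalRingAt A P S

/-- The valuation ring `V` of `K` dominates the local ring `S ⊆ K`. -/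
def Dominates (V : ValuationSubring K) (S : Subalgebra k K) : Prop :=
  (∀ f ∈ S, f ∈ V) ∧ ∀ f ∈ S, f⁻¹ ∈ V → f⁻¹ ∈ S

/-- `A ⊆ K` is the coordinate ring of an affine variety over `k` with function field `K`. -/
def IsAffineVariety (A : Subalgebra k K) : Prop :=
  A.FG ∧ ∀ f : K, ∃ a b : A, (b : K) ≠ 0 ∧ f = (a : K) / (b : K)

variable (k K) in
/-- A variety over `k` with function field `K`, given by finitely many affine charts. It is
separated: a valuation ring of `K` dominates the local ring of at most one point. -/
structure Variety where
  /-- the index set of the charts -/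
  ι : Type
  finite_ι : Finite ι
  nonempty_ι : Nonempty ι
  /-- the coordinate rings of the charts -/
  chart : ι → Subalgebra k K
  isAffineVariety : ∀ i, IsAffineVariety (chart i)
  separated : ∀ (V : ValuationSubring K) (S T : Subalgebra k K) (i j : ι),
    IsPoint (chart i) S → IsPoint (chart j) T → Dominates V S → Dominates V T → S = T

namespace Variety

/-- `S` is the local ring of a point of the variety `Y`. -/
def HasPoint (Y : Variety k K) (S : Subalgebra k K) : Prop :=
  ∃ i, IsPoint (Y.chart i) S

/-- `S` is the local ring of a closed point of the variety `Y`. -/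
def HasClosedPoint (Y : Variety k K) (S : Subalgebra k K) : Prop :=
  ∃ i, IsClosedPoint (Y.chart i) S

/-- `Y` is a proper birational modification of the affine variety `X = Spec R`: the identity of
the function field `K` comes from a morphism `Y → X` (all charts of `Y` contain `R`), which is
proper (valuative criterion: every valuation ring of `K` which contains `R` dominates the local
ring of a point of `Y`). -/
def ProperOver (Y : Variety k K) (R : Subalgebra k K) : Prop :=
  (∀ i, R ≤ Y.chart i) ∧
    ∀ V : ValuationSubring K, (∀ f ∈ R, f ∈ V) → ∃ S, Y.HasPoint S ∧ Dominates V S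

/-- `Y → X = Spec R` is a log resolution of `(X, 0)`, `X` a variety of dimension `n`: it is proper
and birational, `Y` is smooth, and the exceptional locus (the set of the points of `Y` whose local
ring is not the local ring of a point of `X`) is a divisor with simple normal crossings: at every
closed point of `Y`, with local ring `S`, there is a regular system of parameters
`u 1, …, u n` such that the exceptional locus is given near this point by `∏ i ∈ J, u i = 0` for
a set `J` of indices. -/
def IsLogResolution (Y : Variety k K) (R : Subalgebra k K) (n : ℕ) : Prop :=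
  Y.ProperOver R ∧
  (∀ S, Y.HasPoint S → Algebra.FormallySmooth k S) ∧
  ∀ S, Y.HasClosedPoint S → ∃ u : Fin n → S,
    (∀ f : S, f ∈ Ideal.span (Set.range u) ↔ ¬ IsUnit f) ∧
    ∃ J : Finset (Fin n), ∀ T : Subalgebra k K, Y.HasPoint T → S ≤ T →
      (¬ IsPoint R T ↔ (∏ i ∈ J, (u i : K))⁻¹ ∉ T)

end Variety

variable (k K) in
/-- The `K`-vector space in which the rational differential `m`-forms of `K/k` live: the functions
of `m` rational vector fields (derivations of `K` over `k`) with values in `K`. -/
def Form (m : ℕ) : Type u := (Fin m → Derivation k K K) → K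

noncomputable instance (m : ℕ) : AddCommGroup (Form k K m) :=
  inferInstanceAs (AddCommGroup ((Fin m → Derivation k K K) → K))

noncomputable instance (m : ℕ) : Module K (Form k K m) :=
  inferInstanceAs (Module K ((Fin m → Derivation k K K) → K))

variable (k) in
/-- The rational `m`-form `d r 1 ∧ ⋯ ∧ d r m`, whose value on the vector fields `D 1, …, D m` is
`det (D j (r i))`. -/
def wedge {m : ℕ} (r : Fin m → K) : Form k K m :=
  fun D => Matrix.det (Matrix.of fun i j => D j (r i))

/-- The rational `m`-form `ω` of `K/k` is regular at the (smooth) point with local ring `S`: it is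
an `S`-linear combination of forms `d r 1 ∧ ⋯ ∧ d r m` with `r i ∈ S`. -/
def RegularAt {m : ℕ} (ω : Form k K m) (S : Subalgebra k K) : Prop :=
  ω ∈ Submodule.span S {η | ∃ r : Fin m → K, (∀ i, r i ∈ S) ∧ η = wedge k r}

/-- `ω` is a regular form on the smooth locus of the affine variety `Spec R`. -/
def RegularOnSmoothLocus {m : ℕ} (ω : Form k K m) (R : Subalgebra k K) : Prop :=
  ∀ S, IsPoint R S → Algebra.FormallySmooth k S → RegularAt ω S

/-- The pull-back of `ω` is a regular form on the variety `Y`. -/
def Variety.RegularOn {m : ℕ} (Y : Variety k K) (ω : Form k K m) : Prop :=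
  ∀ S, Y.HasPoint S → RegularAt ω S

/-- The affine variety `Spec R` of characteristic `p` is strongly `F`-regular, that is (being
affine) `(Spec R, 0)` is globally `F`-regular: for every nonzero `c ∈ R` there is `e > 0` such
that the map `R → F^e_* R`, `1 ↦ F^e_* c`, splits as a map of `R`-modules. -/
def StronglyFRegular (p : ℕ) (R : Type*) [CommRing R] : Prop :=
  ∀ c : R, c ≠ 0 → ∃ e : ℕ, 0 < e ∧ ∃ φ : R →+ R,
    (∀ r s : R, φ (r ^ p ^ e * s) = r * φ s) ∧ φ c = 1

end Pool.Agent.TH193.FReg
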