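import Pool.Agent.TH193.FReg.Defs

/-! Splittings of the iterated Frobenius of monomial subalgebras of a polynomial ring. -/

open MvPolynomial

namespace Pool.Agent.TH193.FReg

universe u

section psi

variable {σ : Type} [Finite σ] {k : Type u} [Field k]

/-- The coefficient extraction `∑ c_δ X^δ ↦ ∑ root (c_{q β + m}) X^β`. -/
noncomputable def psi (q : ℕ) (hq : q ≠ 0) (m : σ →₀ ℕ) (root : k →+ k) :
    MvPolynomial σ k →+ MvPolynomial σ k where
  toFun f := AddMonoidAlgebra.ofCoeff (Finsupp.mapRange root root.map_zero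
    (Finsupp.comapDomain (fun β : σ →₀ ℕ => q • β + m) (AddMonoidAlgebra.coeff f)
      (Function.Injective.injOn (fun a b h => by
        have h1 : q • a = q • b := add_right_cancel h
        ext i
        have h2 := DFunLike.congr_fun h1 i
        simp only [Finsupp.smul_apply, smul_eq_mul] at h2
        exact Nat.eq_of_mul_eq_mul_left (Nat.pos_of_ne_zero hq) h2))))
  map_zero' := by
    ext β
    simp [MvPolynomial.coeff]
  map_add' f g := by
    ext β
    simp [MvPolynomial.coeff]

theorem coeff_psi (q : ℕ) (hq : q ≠ 0) (m : σ →₀ ℕ) (root : k →+ k) (f : MvPolynomial σ k)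
    (β : σ →₀ ℕ) : coeff β (psi q hq m root f) = root (coeff (q • β + m) f) := rfl

theorem psi_monomial_pow_mul (p e : ℕ) (m : σ →₀ ℕ) (hp : p ^ e ≠ 0)
    (hm : ∀ i, m i < p ^ e) (root : k →+ k) (hroot : ∀ a b : k, root (a ^ p ^ e * b) = a * root b)
    (γ : σ →₀ ℕ) (a : k) (f : MvPolynomial σ k) :
    psi (p ^ e) hp m root (monomial γ a ^ p ^ e * f) =
      monomial γ a * psi (p ^ e) hp m root f := by
  ext β
  rw [coeff_psi, MvPolynomial.monomial_pow, coeff_monomial_mul', coeff_monomial_mul']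
  have hiff : p ^ e • γ ≤ p ^ e • β + m ↔ γ ≤ β := by
    constructor
    · intro h i
      have h1 := h i
      simp only [Finsupp.smul_apply, Finsupp.add_apply, smul_eq_mul] at h1
      by_contra h2
      push Not at h2
      have h3 : β i + 1 ≤ γ i := h2
      have h4 := Nat.mul_le_mul_left (p ^ e) h3
      have h5 := hm i
      rw [mul_add, mul_one] at h4
      omega
    · intro h i
      have h1 := h i
      simp only [Finsupp.smul_apply, Finsupp.add_apply, smul_eq_mul]
      have h4 := Nat.mul_le_mul_left (p ^ e) h1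
      omega
  by_cases h : γ ≤ β
  · rw [if_pos (hiff.2 h), if_pos h, hroot, coeff_psi]
    congr 2
    obtain ⟨δ, rfl⟩ := exists_add_of_le h
    rw [smul_add, add_assoc, add_tsub_cancel_left, add_tsub_cancel_left]
  · rw [if_neg (fun h' => h (hiff.1 h')), if_neg h, map_zero]

theorem psi_pow_mul (p e : ℕ) [Fact p.Prime] [CharP k p] (m : σ →₀ ℕ) (hp : p ^ e ≠ 0)
    (hm : ∀ i, m i < p ^ e) (root : k →+ k) (hroot : ∀ a b : k, root (a ^ p ^ e * b) = a * root b)
    (g f : MvPolynomial σ k) :
    psi (p ^ e) hp m root (g ^ p ^ e * f) = g * psi (p ^ e) hp m root f := by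
  have : CharP (MvPolynomial σ k) p := inferInstance
  have : ExpChar (MvPolynomial σ k) p := inferInstance
  induction g using MvPolynomial.induction_on' with
  | monomial γ a => exact psi_monomial_pow_mul p e m hp hm root hroot γ a f
  | add g1 g2 h1 h2 =>
    rw [add_pow_expChar_pow, add_mul, map_add, h1, h2, add_mul]

end psi

section monomialAlgebra

variable {σ : Type} [Finite σ] {k : Type u} [Field k]

/-- The monomial subalgebra of the polynomials all of whose monomials satisfy `l δ ≥ 0`. -/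
noncomputable def monAlg (k : Type u) [Field k] (l : (σ →₀ ℕ) →+ ℤ) :
    Subalgebra k (MvPolynomial σ k) where
  carrier := {f | ∀ δ, coeff δ f ≠ 0 → 0 ≤ l δ}
  mul_mem' {f g} hf hg := by
    classical
    intro δ hδ
    have h1 := MvPolynomial.support_mul f g (MvPolynomial.mem_support_iff.2 hδ)
    obtain ⟨a, ha, b, hb, rfl⟩ := Finset.mem_add.1 h1
    rw [map_add]
    exact add_nonneg (hf a (MvPolynomial.mem_support_iff.1 ha))
      (hg b (MvPolynomial.mem_support_iff.1 hb))
  add_mem' {f g} hf hg := by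
    intro δ hδ
    rw [coeff_add] at hδ
    by_cases h : coeff δ f = 0
    · exact hg δ (fun h' => hδ (by rw [h, h', add_zero]))
    · exact hf δ h
  algebraMap_mem' c := by
    classical
    intro δ hδ
    rw [MvPolynomial.algebraMap_eq, coeff_C] at hδ
    by_cases h : 0 = δ
    · rw [← h, map_zero]
    · rw [if_neg h] at hδ
      exact absurd rfl hδ

theorem mem_monAlg {l : (σ →₀ ℕ) →+ ℤ} {f : MvPolynomial σ k} :
    f ∈ monAlg k l ↔ ∀ δ, coeff δ f ≠ 0 → 0 ≤ l δ := Iff.rfl

theorem stronglyFRegular_monAlg (p : ℕ) [Fact p.Prime] [CharP k p] [PerfectRing k p]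
    (l : (σ →₀ ℕ) →+ ℤ) : StronglyFRegular p (monAlg k l) := by
  classical
  intro c hc
  obtain ⟨f, hf⟩ := c
  have hf0 : f ≠ 0 := fun h => hc (Subtype.ext h)
  obtain ⟨m, hm⟩ := MvPolynomial.ne_zero_iff.1 hf0
  -- a large power of `p`
  obtain ⟨B, hB⟩ : ∃ B : ℕ, (∀ δ ∈ f.support, ∀ i, δ i < B) ∧ l m < B := by
    obtain ⟨B1, hB1⟩ : ∃ B1 : ℕ, ∀ δ ∈ f.support, ∀ i, δ i < B1 := by
      have := Fintype.ofFinite σ
      refine ⟨(f.support.sum fun δ => ∑ i, δ i) + 1, fun δ hδ i => Nat.lt_succ_of_le ?_⟩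
      have h1 : δ i ≤ ∑ i, δ i := Finset.single_le_sum (fun _ _ => Nat.zero_le _)
        (Finset.mem_univ i)
      have h2 : (∑ i, δ i) ≤ f.support.sum fun δ => ∑ i, δ i :=
        Finset.single_le_sum (f := fun δ : σ →₀ ℕ => ∑ i, δ i) (fun _ _ => Nat.zero_le _) hδ
      exact h1.trans h2
    refine ⟨max B1 ((l m).toNat + 1), fun δ hδ i => (hB1 δ hδ i).trans_le (le_max_left _ _), ?_⟩
    have h1 : l m ≤ (l m).toNat := Int.self_le_toNat _
    have h2 : (l m).toNat + 1 ≤ max B1 ((l m).toNat + 1) := le_max_right _ _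
    omega
  have hp2 : 1 < p := (Fact.out : p.Prime).one_lt
  obtain ⟨e, he⟩ : ∃ e : ℕ, B < p ^ e ∧ 0 < e := by
    refine ⟨B + 1, ?_, Nat.succ_pos _⟩
    exact (Nat.lt_succ_self B).trans (Nat.lt_pow_self hp2)
  have hq0 : p ^ e ≠ 0 := by omega
  set c0 : k := coeff m f with hc0
  let root : k →+ k :=
    ((iterateFrobeniusEquiv k p e).symm.toRingHom.toAddMonoidHom).comp
      (AddMonoidHom.mulRight c0⁻¹)
  have hroot : ∀ a b : k, root (a ^ p ^ e * b) = a * root b := by
    intro a b
    change (iterateFrobeniusEquiv k p e).symm (a ^ p ^ e * b * c0⁻¹) =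
      a * (iterateFrobeniusEquiv k p e).symm (b * c0⁻¹)
    rw [mul_assoc, map_mul]
    congr 1
    rw [RingEquiv.symm_apply_eq]
    exact (iterateFrobeniusEquiv_def k p e a).symm
  have hmB : ∀ i, m i < p ^ e := fun i =>
    (hB.1 m (MvPolynomial.mem_support_iff.2 hm) i).trans he.1
  let ψ := psi (p ^ e) hq0 m root
  have hψ : ∀ g ∈ monAlg k l, ψ g ∈ monAlg k l := by
    intro g hg β hβ
    rw [coeff_psi] at hβ
    have h1 : coeff (p ^ e • β + m) g ≠ 0 := fun h => hβ (by rw [h, map_zero])
    have h2 := hg _ h1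
    rw [map_add, map_nsmul, nsmul_eq_mul] at h2
    have h3 : ((p ^ e : ℕ) : ℤ) > l m := by
      have := hB.2
      have h4 : (B : ℤ) < (p ^ e : ℕ) := by exact_mod_cast he.1
      omega
    by_contra hneg
    push Not at hneg
    have h5 : l β ≤ -1 := by omega
    have h6 : ((p ^ e : ℕ) : ℤ) * l β ≤ ((p ^ e : ℕ) : ℤ) * (-1) :=
      mul_le_mul_of_nonneg_left h5 (by positivity)
    push_cast at *
    omega
  refine ⟨e, he.2, ?_⟩
  refine ⟨{ toFun := fun g => ⟨ψ g, hψ g g.2⟩
            map_zero' := Subtype.ext (map_zero ψ)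
            map_add' := fun a b => Subtype.ext (map_add ψ (a : MvPolynomial σ k) b) }, ?_, ?_⟩
  · intro r s
    exact Subtype.ext (psi_pow_mul p e m hq0 hmB root hroot (r : MvPolynomial σ k) s)
  · apply Subtype.ext
    change ψ f = 1
    ext β
    rw [coeff_psi, coeff_one]
    by_cases hβ : (0 : σ →₀ ℕ) = β
    · rw [if_pos hβ, ← hβ, smul_zero, zero_add]
      change (iterateFrobeniusEquiv k p e).symm (c0 * c0⁻¹) = 1
      rw [mul_inv_cancel₀ hm, map_one]
    · rw [if_neg hβ]
      have h1 : coeff (p ^ e • β + m) f = 0 := by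
        by_contra hne
        apply hβ
        ext i
        have h2 := hB.1 _ (MvPolynomial.mem_support_iff.2 hne) i
        simp only [Finsupp.add_apply, Finsupp.smul_apply, smul_eq_mul] at h2
        by_contra h3
        have h4 : 1 ≤ β i := Nat.one_le_iff_ne_zero.2 (fun h => h3 (by rw [h]; rfl))
        have h5 := Nat.mul_le_mul_left (p ^ e) h4
        omega
      rw [h1, map_zero]

end monomialAlgebra

end Pool.Agent.TH193.FReg
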