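import Pool.Agent.TH193.FReg.Basic

/-! Formal smoothness, derivations. -/

open scoped KaehlerDifferential TensorProduct

namespace Pool.Agent.TH193.FReg

universe u

section ring

variable {k : Type u} [Field k]

theorem dvd_of_projective {S : Type u} [CommRing S] [IsLocalRing S] [Algebra k S]
    [Module.Projective S Ω[S⁄k]] (x y : S)
    (h : x • KaehlerDifferential.D k S y + y • KaehlerDifferential.D k S x = 0)
    (E : Ω[S⁄k] →ₗ[S] IsLocalRing.ResidueField S)
    (hE : E (KaehlerDifferential.D k S x) ≠ 0) : x ∣ y := by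
  obtain ⟨s, hs⟩ := (Module.projective_def' (R := S) (P := Ω[S⁄k])).1 inferInstance
  have hs' : ∀ η, Finsupp.linearCombination S id (s η) = η := fun η =>
    LinearMap.congr_fun hs η
  obtain ⟨ω, hω⟩ : ∃ ω, IsUnit (s (KaehlerDifferential.D k S x) ω) := by
    by_contra hcon
    push Not at hcon
    apply hE
    rw [← hs' (KaehlerDifferential.D k S x), Finsupp.linearCombination_apply, Finsupp.sum,
      map_sum]
    refine Finset.sum_eq_zero fun ω _ => ?_
    rw [map_smul]
    have h1 : s (KaehlerDifferential.D k S x) ω ∈ IsLocalRing.maximalIdeal S :=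
      (IsLocalRing.mem_maximalIdeal _).2 (hcon ω)
    rw [Algebra.smul_def]
    have h2 : algebraMap S (IsLocalRing.ResidueField S) (s (KaehlerDifferential.D k S x) ω) = 0 :=
      (IsLocalRing.residue_eq_zero_iff _).2 h1
    rw [h2, zero_mul]
  let l : Ω[S⁄k] →ₗ[S] S := (Finsupp.lapply ω) ∘ₗ s
  have h1 : x * l (KaehlerDifferential.D k S y) + y * l (KaehlerDifferential.D k S x) = 0 := by
    have := congrArg l h
    rw [map_add, map_smul, map_smul, map_zero] at this
    exact this
  obtain ⟨u, hu⟩ := hω
  have hu' : l (KaehlerDifferential.D k S x) = u := hu.symm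
  rw [hu'] at h1
  refine ⟨-(l (KaehlerDifferential.D k S y) * (u⁻¹ : Sˣ)), ?_⟩
  have h3 := eq_neg_of_add_eq_zero_right h1
  calc y = y * u * (u⁻¹ : Sˣ) := by rw [mul_assoc, u.mul_inv, mul_one]
    _ = -(x * l (KaehlerDifferential.D k S y)) * (u⁻¹ : Sˣ) := by rw [h3]
    _ = _ := by ring

/-- Derivations with values in a module over a localisation extend to the localisation. -/
theorem exists_extension (A S V : Type u) [CommRing A] [CommRing S] [AddCommGroup V] [Algebra k A]
    [Algebra k S] [Algebra A S] [IsScalarTower k A S] [Module A V] [Module S V] [Module k V]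
    [IsScalarTower A S V] [IsScalarTower k A V] (M : Submonoid A)
    [IsLocalization M S] (E : Derivation k A V) :
    ∃ l : Ω[S⁄k] →ₗ[S] V, ∀ a : A, l (KaehlerDifferential.D k S (algebraMap A S a)) = E a := by
  have hfe : Algebra.FormallyEtale A S := Algebra.FormallyEtale.of_isLocalization M
  let l0 : Ω[A⁄k] →ₗ[A] V := E.liftKaehlerDifferential
  let l : S ⊗[A] Ω[A⁄k] →ₗ[S] V := LinearMap.liftBaseChange S l0
  let e := KaehlerDifferential.tensorKaehlerEquivOfFormallyEtale k A S
  refine ⟨l ∘ₗ e.symm.toLinearMap, fun c => ?_⟩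
  change l (e.symm (KaehlerDifferential.D k S (algebraMap A S c))) = _
  rw [KaehlerDifferential.tensorKaehlerEquivOfFormallyEtale_symm_D_algebraMap,
    LinearMap.liftBaseChange_tmul, one_smul]
  exact Derivation.liftKaehlerDifferential_comp_D _ _

end ring

variable {k : Type u} [Field k] {K : Type u} [Field K] [Algebra k K]

theorem IsLocalRingAt.isLocalization {A S : Subalgebra k K} {P : Ideal A} [P.IsPrime]
    (h : IsLocalRingAt A P S) :
    letI := (Subalgebra.inclusion h.le).toRingHom.toAlgebra
    IsLocalization.AtPrime S P := by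
  let _ := (Subalgebra.inclusion h.le).toRingHom.toAlgebra
  have hmap : ∀ a : A, ((algebraMap A S a : S) : K) = a := fun a => rfl
  refine ⟨⟨?_, ?_, ?_⟩⟩
  · rintro ⟨a, ha⟩
    rw [isUnit_iff]
    exact ⟨h.ne_zero ha, h.inv_mem ha⟩
  · intro f
    obtain ⟨a, s, hs, e⟩ := (h.2 f).1 f.2
    refine ⟨(a, ⟨s, hs⟩), ?_⟩
    apply Subtype.ext
    change (f : K) * (s : K) = a
    rw [e]
    exact div_mul_cancel₀ _ (h.ne_zero hs)
  · intro a b hab
    refine ⟨1, ?_⟩
    have : (a : K) = b := congrArg (fun z : S => (z : K)) hab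
    rw [Subtype.ext this]

theorem IsLocalRingAt.formallySmooth {A S : Subalgebra k K} {P : Ideal A}
    (h : IsLocalRingAt A P S) [Algebra.FormallySmooth k A] : Algebra.FormallySmooth k S := by
  letI := (Subalgebra.inclusion h.le).toRingHom.toAlgebra
  have := h.1
  have := h.isLocalization
  have : IsScalarTower k A S := IsScalarTower.of_algebraMap_eq fun c => rfl
  have : Algebra.FormallySmooth A S := Algebra.FormallySmooth.of_isLocalization P.primeCompl
  exact Algebra.FormallySmooth.comp k A S

end Pool.Agent.TH193.FReg
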