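import Pool.Agent.TH193.FReg.Frob
import Pool.Agent.TH193.FReg.Smooth

/-! The affine toric variety `x y = z ^ p` times an affine space, inside its function field. -/

open MvPolynomial
open scoped KaehlerDifferential

namespace Pool.Agent.TH193.FReg

universe u

section

variable (k : Type u) [Field k] (N : ℕ) (K : Type u) [Field K] [Algebra k K]
  [Algebra (MvPolynomial (Fin (N + 2)) k) K] [IsScalarTower k (MvPolynomial (Fin (N + 2)) k) K]
  [IsFractionRing (MvPolynomial (Fin (N + 2)) k) K]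

/-- the inclusion of the polynomial ring -/
noncomputable def am : MvPolynomial (Fin (N + 2)) k →ₐ[k] K :=
  IsScalarTower.toAlgHom k (MvPolynomial (Fin (N + 2)) k) K

theorem am_injective : Function.Injective (am k N K) :=
  IsFractionRing.injective (MvPolynomial (Fin (N + 2)) k) K

/-- the coordinate `x` -/
noncomputable def xx : K := am k N K (X 0)

/-- the coordinate `z / x` -/
noncomputable def uu : K := am k N K (X 1)

/-- the coordinate `z` -/
noncomputable def zz : K := xx k N K * uu k N K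

/-- the coordinate `y` -/
noncomputable def yy (p : ℕ) : K := zz k N K ^ p / xx k N K

/-- the coordinates `t i` of the affine space -/
noncomputable def tt (i : Fin N) : K := am k N K (X i.succ.succ)

/-- the linear form -/
noncomputable def lf (p : ℕ) : (Fin (N + 2) →₀ ℕ) →+ ℤ where
  toFun δ := p * (δ 0 : ℤ) - (p - 1) * (δ 1 : ℤ)
  map_zero' := by simp
  map_add' a b := by
    simp only [Finsupp.add_apply]
    push_cast
    ring

/-- the coordinate ring -/
noncomputable def RR (p : ℕ) : Subalgebra k K := (monAlg k (lf N p)).map (am k N K)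

theorem xx_ne : xx k N K ≠ 0 := by
  unfold xx
  rw [ne_eq, map_eq_zero_iff _ (am_injective k N K)]
  exact X_ne_zero 0

theorem uu_ne : uu k N K ≠ 0 := by
  unfold uu
  rw [ne_eq, map_eq_zero_iff _ (am_injective k N K)]
  exact X_ne_zero 1

theorem zz_ne : zz k N K ≠ 0 := mul_ne_zero (xx_ne k N K) (uu_ne k N K)

theorem yy_ne (p : ℕ) : yy k N K p ≠ 0 := div_ne_zero (pow_ne_zero _ (zz_ne k N K)) (xx_ne k N K)

theorem xy_eq (p : ℕ) : xx k N K * yy k N K p = zz k N K ^ p := by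
  unfold yy
  rw [mul_div_cancel₀]
  exact xx_ne k N K

theorem yy_eq (p : ℕ) (hp : 1 ≤ p) : yy k N K p = am k N K (X 0 ^ (p - 1) * X 1 ^ p) := by
  have h := xx_ne k N K
  unfold yy
  rw [div_eq_iff h, map_mul, map_pow, map_pow]
  change (xx k N K * uu k N K) ^ p = xx k N K ^ (p - 1) * uu k N K ^ p * xx k N K
  obtain ⟨q, rfl⟩ := Nat.exists_eq_add_of_le' hp
  rw [Nat.add_sub_cancel]
  ring

theorem monomial_mem_monAlg {σ : Type} {l : (σ →₀ ℕ) →+ ℤ} {δ : σ →₀ ℕ} (h : 0 ≤ l δ) (c : k) :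
    monomial δ c ∈ monAlg k l := by
  classical
  intro γ hγ
  rw [coeff_monomial] at hγ
  by_cases h1 : δ = γ
  · rwa [← h1]
  · rw [if_neg h1] at hγ
    exact absurd rfl hγ

theorem monomial_eq' (δ : Fin (N + 2) →₀ ℕ) (c : k) :
    (monomial δ c : MvPolynomial (Fin (N + 2)) k) =
      C c * (X 0 ^ δ 0 * X 1 ^ δ 1 * ∏ i : Fin N, X i.succ.succ ^ δ i.succ.succ) := by
  rw [MvPolynomial.monomial_eq, Finsupp.prod_fintype _ _ (fun k => pow_zero _),
    Fin.prod_univ_succ, Fin.prod_univ_succ, mul_assoc]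
  rfl

/-- the generators of the coordinate ring -/
noncomputable def genR (p : ℕ) : Set K :=
  {xx k N K, zz k N K, yy k N K p} ∪ Set.range (tt k N K)

theorem RR_le_adjoin (p : ℕ) (hp : 1 ≤ p) :
    RR k N K p ≤ Algebra.adjoin k (genR k N K p) := by
  rintro _ ⟨f, hf, rfl⟩
  have hx : xx k N K ∈ Algebra.adjoin k (genR k N K p) :=
    Algebra.subset_adjoin (Or.inl (by simp))
  have hz : zz k N K ∈ Algebra.adjoin k (genR k N K p) :=
    Algebra.subset_adjoin (Or.inl (by simp))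
  have hy : yy k N K p ∈ Algebra.adjoin k (genR k N K p) :=
    Algebra.subset_adjoin (Or.inl (by simp))
  have ht : ∀ i, tt k N K i ∈ Algebra.adjoin k (genR k N K p) := fun i =>
    Algebra.subset_adjoin (Or.inr ⟨i, rfl⟩)
  change am k N K f ∈ _
  rw [f.as_sum, map_sum]
  refine Subalgebra.sum_mem _ fun δ hδ => ?_
  have h0 : 0 ≤ lf N p δ := hf δ (mem_support_iff.1 hδ)
  change (0 : ℤ) ≤ p * (δ 0 : ℤ) - (p - 1) * (δ 1 : ℤ) at h0
  rw [monomial_eq', map_mul, map_mul, map_mul, map_prod, map_pow, map_pow]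
  refine Subalgebra.mul_mem _ ?_ (Subalgebra.mul_mem _ ?_ (Subalgebra.prod_mem _ fun i _ => ?_))
  · rw [← MvPolynomial.algebraMap_eq, AlgHom.commutes]
    exact Subalgebra.algebraMap_mem _ _
  · change xx k N K ^ δ 0 * uu k N K ^ δ 1 ∈ _
    by_cases h : δ 1 ≤ δ 0
    · obtain ⟨m, hm⟩ := Nat.exists_eq_add_of_le' h
      have e : xx k N K ^ δ 0 * uu k N K ^ δ 1 = xx k N K ^ m * zz k N K ^ δ 1 := by
        rw [hm, zz]
        ring
      rw [e]
      exact Subalgebra.mul_mem _ (Subalgebra.pow_mem _ hx _) (Subalgebra.pow_mem _ hz _)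
    · push Not at h
      obtain ⟨m, hm⟩ := Nat.exists_eq_add_of_le h.le
      obtain ⟨q, rfl⟩ := Nat.exists_eq_add_of_le' hp
      have h1 : q * m ≤ δ 0 := by
        rw [hm] at h0
        push_cast at h0
        have : ((q * m : ℕ) : ℤ) ≤ (δ 0 : ℕ) := by
          push_cast
          nlinarith
        exact_mod_cast this
      obtain ⟨r, hr⟩ := Nat.exists_eq_add_of_le h1
      have e : xx k N K ^ δ 0 * uu k N K ^ δ 1 = yy k N K (q + 1) ^ m * zz k N K ^ r := by
        rw [yy_eq k N K (q + 1) hp, map_mul, map_pow, map_pow, Nat.add_sub_cancel]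
        change _ = (xx k N K ^ q * uu k N K ^ (q + 1)) ^ m * zz k N K ^ r
        rw [hm, hr, zz]
        ring
      rw [e]
      exact Subalgebra.mul_mem _ (Subalgebra.pow_mem _ hy _) (Subalgebra.pow_mem _ hz _)
  · rw [map_pow]
    exact Subalgebra.pow_mem _ (ht i) _

theorem mem_RR_of_monomial (p : ℕ) {δ : Fin (N + 2) →₀ ℕ} (h : 0 ≤ lf N p δ) (c : k) :
    am k N K (monomial δ c) ∈ RR k N K p :=
  ⟨_, monomial_mem_monAlg k h c, rfl⟩

theorem X_mem (p : ℕ) (i : Fin (N + 2)) (hi : i ≠ 1) : am k N K (X i) ∈ RR k N K p := by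
  classical
  refine mem_RR_of_monomial k N K p ?_ 1
  change (0 : ℤ) ≤ p * ((Finsupp.single i 1 : Fin (N + 2) →₀ ℕ) 0 : ℤ) -
    (p - 1) * ((Finsupp.single i 1 : Fin (N + 2) →₀ ℕ) 1 : ℤ)
  rw [Finsupp.single_apply, Finsupp.single_apply, if_neg hi]
  push_cast
  split_ifs <;> simp

theorem xx_mem (p : ℕ) : xx k N K ∈ RR k N K p :=
  X_mem k N K p 0 (by simp)

theorem tt_mem (p : ℕ) (i : Fin N) : tt k N K i ∈ RR k N K p :=
  X_mem k N K p _ (by
    intro h
    have := congrArg Fin.val h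
    simp at this)

theorem zz_mem (p : ℕ) : zz k N K ∈ RR k N K p := by
  have e : zz k N K = am k N K (monomial (Finsupp.single 0 1 + Finsupp.single 1 1) 1) := by
    rw [zz, xx, uu, ← map_mul]
    congr 1
    rw [X, X, monomial_mul, one_mul]
  rw [e]
  refine mem_RR_of_monomial k N K p ?_ 1
  change (0 : ℤ) ≤ p * ((Finsupp.single 0 1 + Finsupp.single 1 1 : Fin (N + 2) →₀ ℕ) 0 : ℤ) -
    (p - 1) * ((Finsupp.single 0 1 + Finsupp.single 1 1 : Fin (N + 2) →₀ ℕ) 1 : ℤ)
  simp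

theorem yy_mem (p : ℕ) (hp : 1 ≤ p) : yy k N K p ∈ RR k N K p := by
  have e : yy k N K p =
      am k N K (monomial (Finsupp.single 0 (p - 1) + Finsupp.single 1 p) 1) := by
    rw [yy_eq k N K p hp]
    congr 1
    rw [X_pow_eq_monomial, X_pow_eq_monomial, monomial_mul, one_mul]
  rw [e]
  refine mem_RR_of_monomial k N K p ?_ 1
  change (0 : ℤ) ≤ p * ((Finsupp.single 0 (p - 1) + Finsupp.single 1 p : Fin (N + 2) →₀ ℕ) 0 : ℤ) -
    (p - 1) * ((Finsupp.single 0 (p - 1) + Finsupp.single 1 p : Fin (N + 2) →₀ ℕ) 1 : ℤ)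
  simp only [Finsupp.add_apply, Finsupp.single_apply]
  simp
  rw [Nat.cast_sub hp]
  push_cast
  nlinarith

theorem RR_eq_adjoin (p : ℕ) (hp : 1 ≤ p) :
    RR k N K p = Algebra.adjoin k (genR k N K p) := by
  refine le_antisymm (RR_le_adjoin k N K p hp) (Algebra.adjoin_le ?_)
  rintro _ ((rfl | rfl | rfl) | ⟨i, rfl⟩)
  · exact xx_mem k N K p
  · exact zz_mem k N K p
  · exact yy_mem k N K p hp
  · exact tt_mem k N K p i

theorem exists_pow_mul_mem (p : ℕ) (hp : 1 ≤ p) (f : MvPolynomial (Fin (N + 2)) k) :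
    ∃ M : ℕ, ∀ n ≥ M, xx k N K ^ n * am k N K f ∈ RR k N K p := by
  refine ⟨f.support.sup fun δ => δ 1, fun n hn => ?_⟩
  rw [f.as_sum, map_sum, Finset.mul_sum]
  refine Subalgebra.sum_mem _ fun δ hδ => ?_
  have h1 : δ 1 ≤ n := (Finset.le_sup (f := fun δ : Fin (N + 2) →₀ ℕ => δ 1) hδ).trans hn
  have e : xx k N K ^ n * am k N K (monomial δ (coeff δ f)) =
      am k N K (monomial (Finsupp.single 0 n + δ) (coeff δ f)) := by
    rw [xx, ← map_pow, ← map_mul, X_pow_eq_monomial, monomial_mul, one_mul]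
  rw [e]
  refine mem_RR_of_monomial k N K p ?_ _
  change (0 : ℤ) ≤ p * ((Finsupp.single 0 n + δ : Fin (N + 2) →₀ ℕ) 0 : ℤ) -
    (p - 1) * ((Finsupp.single 0 n + δ : Fin (N + 2) →₀ ℕ) 1 : ℤ)
  simp only [Finsupp.add_apply, Finsupp.single_apply]
  simp
  have h2 : (δ 1 : ℤ) ≤ n := by exact_mod_cast h1
  have h3 : (1 : ℤ) ≤ p := by exact_mod_cast hp
  have h4 : (0 : ℤ) ≤ δ 0 := by positivity
  nlinarith [mul_nonneg (by linarith : (0 : ℤ) ≤ p - 1) (by linarith : (0 : ℤ) ≤ n - δ 1),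
    mul_nonneg (by linarith : (0 : ℤ) ≤ p) h4]

theorem RR_frac (p : ℕ) (hp : 1 ≤ p) (f : K) :
    ∃ a b : RR k N K p, (b : K) ≠ 0 ∧ f = (a : K) / (b : K) := by
  obtain ⟨g, h, hh, rfl⟩ := IsFractionRing.div_surjective (A := MvPolynomial (Fin (N + 2)) k) f
  have hh0 : am k N K h ≠ 0 := by
    rw [ne_eq, map_eq_zero_iff _ (am_injective k N K)]
    exact nonZeroDivisors.ne_zero hh
  obtain ⟨M1, h1⟩ := exists_pow_mul_mem k N K p hp g
  obtain ⟨M2, h2⟩ := exists_pow_mul_mem k N K p hp h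
  have hx := xx_ne k N K
  refine ⟨⟨_, h1 (max M1 M2) (le_max_left _ _)⟩, ⟨_, h2 (max M1 M2) (le_max_right _ _)⟩,
    mul_ne_zero (pow_ne_zero _ hx) hh0, ?_⟩
  change am k N K g / am k N K h = _
  rw [mul_div_mul_left _ _ (pow_ne_zero _ hx)]

theorem isAffineVariety_RR (p : ℕ) (hp : 1 ≤ p) : IsAffineVariety (RR k N K p) := by
  refine ⟨?_, RR_frac k N K p hp⟩
  rw [RR_eq_adjoin k N K p hp]
  refine Subalgebra.fg_def.2 ⟨_, ?_, rfl⟩
  exact (Set.toFinite _).union (Set.finite_range _)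

theorem stronglyFRegular_RR (p : ℕ) [Fact p.Prime] [CharP k p] [PerfectRing k p] :
    StronglyFRegular p (RR k N K p) := by
  have h := stronglyFRegular_monAlg (k := k) p (lf N p)
  let e : monAlg k (lf N p) ≃ₐ[k] RR k N K p :=
    Subalgebra.equivMapOfInjective _ (am k N K) (am_injective k N K)
  intro c hc
  obtain ⟨n, hn, φ, hφ, hφc⟩ := h (e.symm c) (by simpa using hc)
  refine ⟨n, hn, (e.toAlgHom : monAlg k (lf N p) →+ RR k N K p).comp
    (φ.comp (e.symm.toAlgHom : RR k N K p →+ monAlg k (lf N p))), fun r s => ?_, ?_⟩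
  · change e (φ (e.symm (r ^ p ^ n * s))) = r * e (φ (e.symm s))
    rw [map_mul, map_pow, hφ, map_mul, e.apply_symm_apply]
  · change e (φ (e.symm c)) = 1
    rw [hφc, map_one]

end

/-- Strongly `F`-regular domains are normal. -/
theorem isIntegrallyClosed_of_stronglyFRegular (p : ℕ) [hp : Fact p.Prime] {R : Type u}
    [CommRing R] [IsDomain R] (h : StronglyFRegular p R) : IsIntegrallyClosed R := by
  rw [isIntegrallyClosed_iff (FractionRing R)]
  intro f hf
  obtain ⟨c, hc, hcf⟩ := hf.isAlmostIntegral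
  obtain ⟨a, b, hb, rfl⟩ := IsFractionRing.div_surjective (A := R) f
  have hb0 : b ≠ 0 := nonZeroDivisors.ne_zero hb
  obtain ⟨e, he, φ, hφ, hφc⟩ := h c (nonZeroDivisors.ne_zero hc)
  obtain ⟨r, hr⟩ := hcf (p ^ e)
  have hb1 : algebraMap R (FractionRing R) b ≠ 0 := by
    rw [ne_eq, IsFractionRing.to_map_eq_zero_iff]
    exact hb0
  have h1 : a ^ p ^ e * c = b ^ p ^ e * r := by
    apply IsFractionRing.injective R (FractionRing R)
    rw [map_mul, map_mul, map_pow, map_pow, hr, Algebra.smul_def, div_pow]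
    field_simp
  have h2 : a = b * φ r := by
    have := congrArg φ h1
    rwa [hφ, hφ, hφc, mul_one] at this
  refine ⟨φ r, ?_⟩
  rw [eq_div_iff hb1, ← map_mul, h2, mul_comm]

end Pool.Agent.TH193.FReg
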