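import Pool.Agent.TH193.FReg.Res

/-! The toric resolution of `x y = z ^ p` is a log resolution. -/

open MvPolynomial
open scoped KaehlerDifferential

namespace Pool.Agent.TH193.FReg

universe u

theorem prod_inv_mem {k K : Type u} [Field k] [Field K] [Algebra k K] {n : ℕ}
    (T : Subalgebra k K) (J : Finset (Fin n)) (c : Fin n → K) (hc : ∀ i ∈ J, c i ∈ T)
    (hc0 : ∀ i ∈ J, c i ≠ 0) : (∏ i ∈ J, c i)⁻¹ ∈ T ↔ ∀ i ∈ J, (c i)⁻¹ ∈ T := by
  classical
  constructor
  · intro h i hi
    have e : (c i)⁻¹ = (∏ i ∈ J, c i)⁻¹ * ∏ i ∈ J.erase i, c i := by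
      have h1 : (∏ i ∈ J.erase i, c i) ≠ 0 :=
        Finset.prod_ne_zero_iff.2 fun l hl => hc0 l (Finset.mem_of_mem_erase hl)
      have h2 := hc0 i hi
      rw [← Finset.mul_prod_erase J c hi]
      field_simp
    rw [e]
    exact T.mul_mem h (Subalgebra.prod_mem _ fun l hl => hc l (Finset.mem_of_mem_erase hl))
  · intro h
    rw [← Finset.prod_inv_distrib]
    exact Subalgebra.prod_mem _ h

theorem isLogResolution_YY (k : Type u) [Field k] [IsAlgClosed k] (N : ℕ) (K : Type u) [Field K]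
    [Algebra k K] [Algebra (MvPolynomial (Fin (N + 2)) k) K]
    [IsScalarTower k (MvPolynomial (Fin (N + 2)) k) K]
    [IsFractionRing (MvPolynomial (Fin (N + 2)) k) K] (p : ℕ) [hpp : Fact p.Prime] [CharP k p]
    (hp : 1 ≤ p) : (YY k N K p hp).IsLogResolution (RR k N K p) (N + 2) := by
  classical
  have hp2 : 2 ≤ p := hpp.out.two_le
  refine ⟨properOver_YY k N K p hp, smooth_YY k N K p hp, ?_⟩
  rintro S ⟨(j : Fin p), (Q : Ideal (chart k N K j)), hQm, (hQ : IsLocalRingAt _ Q S)⟩
  have hQm' : Q.IsMaximal := hQm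
  have hjp : (j : ℕ) < p := j.2
  have hloc := hQ.isLocalRing
  let e := chartEquiv k N K j
  have hQ' : (Q.comap (e : MvPolynomial (Fin (N + 2)) k →+* chart k N K j)).IsMaximal :=
    Ideal.comap_isMaximal_of_surjective _ e.surjective
  obtain ⟨a, ha⟩ := MvPolynomial.isMaximal_iff_eq_vanishingIdeal_singleton.1 hQ'
  have hmem : ∀ f : MvPolynomial (Fin (N + 2)) k, e f ∈ Q ↔ eval a f = 0 := by
    intro f
    have h1 : f ∈ Q.comap (e : MvPolynomial (Fin (N + 2)) k →+* chart k N K j) ↔
        eval a f = 0 := by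
      rw [ha, MvPolynomial.mem_vanishingIdeal_singleton_iff]
      rfl
    exact h1
  have heX : ∀ i, (e (X i) : K) = gen k N K j i := by
    intro i
    rw [chartEquiv_apply, aeval_X]
  -- the parameters
  let g : Fin (N + 2) → S := fun i => ⟨gen k N K j i, hQ.le (gen_mem k N K j i)⟩
  let u : Fin (N + 2) → S := fun i => g i - algebraMap k S (a i)
  have hgu : ∀ i, g i = u i + algebraMap k S (a i) := fun i => by
    change g i = g i - algebraMap k S (a i) + algebraMap k S (a i)
    ring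
  have huQ : ∀ i, ((u i : S) : K) = (e (X i - C (a i)) : K) := by
    intro i
    rw [map_sub]
    push_cast
    rw [heX, ← MvPolynomial.algebraMap_eq, AlgEquiv.commutes]
    rfl
  have hu_nonunit : ∀ i, ¬ IsUnit (u i) := by
    intro i hi
    rw [isUnit_iff, huQ] at hi
    have h1 := (hQ.notMem_iff (a := e (X i - C (a i)))).2 hi
    exact h1 ((hmem _).2 (by simp))
  have hspan_le : Ideal.span (Set.range u) ≤ IsLocalRing.maximalIdeal S := by
    rw [Ideal.span_le]
    rintro _ ⟨i, rfl⟩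
    exact (IsLocalRing.mem_maximalIdeal _).2 (hu_nonunit i)
  let incl : chart k N K j →ₐ[k] S := Subalgebra.inclusion hQ.le
  have hev : ∀ f : MvPolynomial (Fin (N + 2)) k,
      incl (e f) - algebraMap k S (eval a f) ∈ Ideal.span (Set.range u) := by
    intro f
    induction f using MvPolynomial.induction_on with
    | C c =>
      rw [eval_C, ← MvPolynomial.algebraMap_eq, AlgEquiv.commutes, AlgHom.commutes, sub_self]
      exact Ideal.zero_mem _
    | add f1 f2 h1 h2 =>
      have e1 : incl (e (f1 + f2)) - algebraMap k S (eval a (f1 + f2)) =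
          (incl (e f1) - algebraMap k S (eval a f1)) +
            (incl (e f2) - algebraMap k S (eval a f2)) := by
        rw [map_add, map_add, map_add, map_add]
        ring
      rw [e1]
      exact Ideal.add_mem _ h1 h2
    | mul_X f1 i h1 =>
      have hgi : incl (e (X i)) = g i := Subtype.ext (heX i)
      have e1 : incl (e (f1 * X i)) - algebraMap k S (eval a (f1 * X i)) =
          g i * (incl (e f1) - algebraMap k S (eval a f1)) +
            algebraMap k S (eval a f1) * u i := by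
        rw [map_mul, map_mul, map_mul, eval_X, map_mul, hgi]
        change _ = _ + _ * (g i - algebraMap k S (a i))
        ring
      rw [e1]
      exact Ideal.add_mem _ (Ideal.mul_mem_left _ _ h1)
        (Ideal.mul_mem_left _ _ (Ideal.subset_span ⟨i, rfl⟩))
  refine ⟨u, fun f => ⟨fun hf => ?_, fun hf => ?_⟩, ?_⟩
  · exact (IsLocalRing.mem_maximalIdeal _).1 (hspan_le hf)
  · obtain ⟨b, s, hs, hbs⟩ := (hQ.2 f).1 f.2
    have hs0 := hQ.ne_zero hs
    have hb : b ∈ Q := by
      by_contra hb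
      apply hf
      rw [isUnit_iff, hbs]
      refine ⟨div_ne_zero (hQ.ne_zero hb) hs0, ?_⟩
      rw [inv_div]
      exact (hQ.2 _).2 ⟨s, b, hb, rfl⟩
    obtain ⟨f1, rfl⟩ := e.surjective b
    have h1 := hev f1
    rw [(hmem f1).1 hb, map_zero, sub_zero] at h1
    have h2 : f = ⟨(s : K)⁻¹, hQ.inv_mem hs⟩ * incl (e f1) := by
      apply Subtype.ext
      rw [hbs]
      change _ = (s : K)⁻¹ * (e f1 : K)
      rw [div_eq_inv_mul]
    rw [h2]
    exact Ideal.mul_mem_left _ _ h1
  · refine ⟨Finset.univ.filter fun i => a i = 0 ∧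
      ((i = 0 ∧ (j : ℕ) + 1 < p) ∨ (i = 1 ∧ 1 ≤ (j : ℕ))), fun T hT hST => ?_⟩
    obtain ⟨(l : Fin p), (Q' : Ideal (chart k N K l)), (hQ'' : IsLocalRingAt _ Q' T)⟩ := hT
    have hjT : chart k N K j ≤ T := hQ.le.trans hST
    have h1 : IsPoint (RR k N K p) T ↔ ((xx k N K)⁻¹ ∈ T ∨ (yy k N K p)⁻¹ ∈ T) := by
      constructor
      · rintro ⟨P, hP⟩
        refine inv_mem_of_formallySmooth k N K p T P hP ?_
        exact smooth_YY k N K p hp T ⟨l, Q', hQ''⟩
      · intro h
        exact isPoint_of_inv_mem k N K p hp hjp ⟨Q', hQ''⟩ hjT h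
    rw [not_iff_not, h1, exc_iff k N K p j hp2 hjp hjT]
    have hu0 : ∀ i, a i = 0 → ((u i : S) : K) = gen k N K j i := by
      intro i hi
      change gen k N K j i - ((algebraMap k S (a i) : S) : K) = _
      rw [hi, map_zero]
      exact sub_zero _
    have hprod : (∏ i ∈ Finset.univ.filter fun i => a i = 0 ∧
        ((i = 0 ∧ (j : ℕ) + 1 < p) ∨ (i = 1 ∧ 1 ≤ (j : ℕ))), ((u i : S) : K)) =
        ∏ i ∈ Finset.univ.filter fun i => a i = 0 ∧
        ((i = 0 ∧ (j : ℕ) + 1 < p) ∨ (i = 1 ∧ 1 ≤ (j : ℕ))), gen k N K j i :=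
      Finset.prod_congr rfl fun i hi => hu0 i (Finset.mem_filter.1 hi).2.1
    have hgT : ∀ i, gen k N K j i ∈ T := fun i => hjT (gen_mem k N K j i)
    have hg00 : gen k N K j 0 = ww k N K j := rfl
    have hg11 : gen k N K j 1 = vv k N K j := rfl
    rw [hprod, prod_inv_mem T _ _ (fun i _ => hgT i) (fun i hi => by
      rcases (Finset.mem_filter.1 hi).2.2 with ⟨rfl, _⟩ | ⟨rfl, _⟩
      · exact ww_ne k N K j
      · exact vv_ne k N K j)]
    have hunit : ∀ i, a i ≠ 0 → gen k N K j i ≠ 0 → (gen k N K j i)⁻¹ ∈ T := by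
      intro i hi _
      have h2 : e (X i) ∉ Q := by
        rw [hmem, eval_X]
        exact hi
      have h3 := hQ.inv_mem h2
      rw [heX] at h3
      exact hST h3
    constructor
    · rintro ⟨h2, h3⟩ i hi
      rcases (Finset.mem_filter.1 hi).2.2 with ⟨rfl, h4⟩ | ⟨rfl, h4⟩
      · exact h2 h4
      · exact h3 h4
    · intro h2
      constructor
      · intro h4
        by_cases ha0 : a 0 = 0
        · exact h2 0 (Finset.mem_filter.2 ⟨Finset.mem_univ _, ha0, Or.inl ⟨rfl, h4⟩⟩)
        · exact hunit 0 ha0 (ww_ne k N K j)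
      · intro h4
        by_cases ha0 : a 1 = 0
        · exact h2 1 (Finset.mem_filter.2 ⟨Finset.mem_univ _, ha0, Or.inr ⟨rfl, h4⟩⟩)
        · exact hunit 1 ha0 (vv_ne k N K j)

end Pool.Agent.TH193.FReg
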