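import Pool.Agent.TH193.FReg.LogRes

/-! The form `d x / x ∧ d t 1 ∧ ⋯`. -/

open MvPolynomial
open scoped KaehlerDifferential

namespace Pool.Agent.TH193.FReg

universe u

section

variable (k : Type u) [Field k] (N : ℕ) (K : Type u) [Field K] [Algebra k K]
  [Algebra (MvPolynomial (Fin (N + 2)) k) K] [IsScalarTower k (MvPolynomial (Fin (N + 2)) k) K]
  [IsFractionRing (MvPolynomial (Fin (N + 2)) k) K]

/-- the functions `x, t 1, …` -/
noncomputable def rr : Fin (N + 1) → K := Fin.cons (xx k N K) (tt k N K)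

/-- the form `d x / x ∧ d t 1 ∧ ⋯` -/
noncomputable def om : Form k K (N + 1) := (xx k N K)⁻¹ • wedge k (rr k N K)

theorem exists_der (i : Fin (N + 2)) : ∃ E : Derivation k K K,
    ∀ a, E (am k N K a) = am k N K (pderiv i a) := by
  obtain ⟨l, hl⟩ := exists_extension (k := k) (MvPolynomial (Fin (N + 2)) k) K K
    (nonZeroDivisors _) ((Algebra.linearMap (MvPolynomial (Fin (N + 2)) k) K).compDer (pderiv i))
  exact ⟨l.compDer (KaehlerDifferential.D k K), hl⟩

/-- the valuation ring of the divisor `x = 0` in the first chart -/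
noncomputable def VV : ValuationSubring K where
  carrier := {f | ∃ a b : MvPolynomial (Fin (N + 2)) k, ¬ X 0 ∣ b ∧ f = am k N K a / am k N K b}
  mul_mem' := by
    rintro _ _ ⟨a, s, hs, rfl⟩ ⟨b, t, ht, rfl⟩
    refine ⟨a * b, s * t, fun h => ?_, ?_⟩
    · rcases (X_prime (i := (0 : Fin (N + 2)))).dvd_or_dvd h with h | h
      · exact hs h
      · exact ht h
    · rw [map_mul, map_mul, div_mul_div_comm]
  one_mem' := ⟨1, 1, X_prime.not_dvd_one, by simp⟩
  zero_mem' := ⟨0, 1, X_prime.not_dvd_one, by simp⟩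
  add_mem' := by
    rintro _ _ ⟨a, s, hs, rfl⟩ ⟨b, t, ht, rfl⟩
    refine ⟨a * t + s * b, s * t, fun h => ?_, ?_⟩
    · rcases (X_prime (i := (0 : Fin (N + 2)))).dvd_or_dvd h with h | h
      · exact hs h
      · exact ht h
    · have hs0 : am k N K s ≠ 0 := by
        rw [ne_eq, map_eq_zero_iff _ (am_injective k N K)]
        rintro rfl
        exact hs (dvd_zero _)
      have ht0 : am k N K t ≠ 0 := by
        rw [ne_eq, map_eq_zero_iff _ (am_injective k N K)]
        rintro rfl
        exact ht (dvd_zero _)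
      rw [div_add_div _ _ hs0 ht0]
      simp only [map_add, map_mul]
  neg_mem' := by
    rintro _ ⟨a, s, hs, rfl⟩
    exact ⟨-a, s, hs, by rw [map_neg, neg_div]⟩
  mem_or_inv_mem' f := by
    obtain ⟨a, b, hb, rfl⟩ := IsFractionRing.div_surjective (A := MvPolynomial (Fin (N + 2)) k) f
    change (∃ c d : MvPolynomial (Fin (N + 2)) k, ¬ X 0 ∣ d ∧ am k N K a / am k N K b =
        am k N K c / am k N K d) ∨
      (∃ c d : MvPolynomial (Fin (N + 2)) k, ¬ X 0 ∣ d ∧ (am k N K a / am k N K b)⁻¹ =
        am k N K c / am k N K d)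
    have hb0 := nonZeroDivisors.ne_zero hb
    by_cases ha0 : a = 0
    · left
      exact ⟨0, 1, X_prime.not_dvd_one, by rw [ha0]; simp⟩
    have hx0 : am k N K (X 0) ≠ 0 := xx_ne k N K
    obtain ⟨c, hac, hc⟩ := (FiniteMultiplicity.of_prime_left
      (X_prime (i := (0 : Fin (N + 2)))) ha0).exists_eq_pow_mul_and_not_dvd
    obtain ⟨d, hbd, hd⟩ := (FiniteMultiplicity.of_prime_left
      (X_prime (i := (0 : Fin (N + 2)))) hb0).exists_eq_pow_mul_and_not_dvd
    generalize multiplicity (X 0) a = m at hac
    generalize multiplicity (X 0) b = n at hbd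
    have hc0 : am k N K c ≠ 0 := by
      rw [ne_eq, map_eq_zero_iff _ (am_injective k N K)]
      rintro rfl
      exact hc (dvd_zero _)
    have hd0 : am k N K d ≠ 0 := by
      rw [ne_eq, map_eq_zero_iff _ (am_injective k N K)]
      rintro rfl
      exact hd (dvd_zero _)
    rcases le_total n m with h | h
    · left
      obtain ⟨l, rfl⟩ := Nat.exists_eq_add_of_le h
      refine ⟨X 0 ^ l * c, d, hd, ?_⟩
      rw [hac, hbd]
      simp only [map_mul, map_pow, pow_add]
      field_simp
    · right
      obtain ⟨l, rfl⟩ := Nat.exists_eq_add_of_le h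
      refine ⟨X 0 ^ l * d, c, hc, ?_⟩
      rw [hac, hbd]
      simp only [map_mul, map_pow, pow_add]
      field_simp

theorem RR_le_VV (p : ℕ) : ∀ f ∈ RR k N K p, f ∈ VV k N K := by
  rintro _ ⟨f, _, rfl⟩
  exact ⟨f, 1, X_prime.not_dvd_one, by
    rw [map_one, div_one]
    rfl⟩

theorem xx_inv_notMem : (xx k N K)⁻¹ ∉ VV k N K := by
  rintro ⟨a, b, hb, e⟩
  have hx := xx_ne k N K
  have hb0 : am k N K b ≠ 0 := by
    rw [ne_eq, map_eq_zero_iff _ (am_injective k N K)]
    rintro rfl
    exact hb (dvd_zero _)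
  apply hb
  refine ⟨a, am_injective k N K ?_⟩
  rw [map_mul]
  change _ = xx k N K * _
  field_simp at e
  linear_combination e

theorem der_mem (i : Fin (N + 2)) (E : Derivation k K K)
    (hl : ∀ a, E (am k N K a) = am k N K (pderiv i a))
    (f : K) (hf : f ∈ VV k N K) : E f ∈ VV k N K := by
  obtain ⟨a, b, hb, rfl⟩ := hf
  have hb0 : am k N K b ≠ 0 := by
    rw [ne_eq, map_eq_zero_iff _ (am_injective k N K)]
    rintro rfl
    exact hb (dvd_zero _)
  refine ⟨b * pderiv i a - a * pderiv i b, b * b, fun h => ?_, ?_⟩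
  · rcases (X_prime (i := (0 : Fin (N + 2)))).dvd_or_dvd h with h | h
    · exact hb h
    · exact hb h
  · have h1 : am k N K a = (am k N K a / am k N K b) * am k N K b := by
      field_simp
    have h2 := congrArg (fun c => E c) h1
    simp only [Derivation.leibniz, hl, smul_eq_mul] at h2
    rw [map_sub, map_mul, map_mul, map_mul, eq_div_iff (mul_ne_zero hb0 hb0)]
    rw [h2]
    field_simp
    ring

theorem not_regularAt (S : Subalgebra k K) (hS : Dominates (VV k N K) S) :
    ¬ RegularAt (om k N K) S := by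
  intro hreg
  choose l hl using exists_der k N K
  let L : Fin (N + 1) → Derivation k K K := Fin.cons (l 0) fun i => l i.succ.succ
  have hLV : ∀ j, ∀ f ∈ VV k N K, L j f ∈ VV k N K := by
    intro j
    refine Fin.cases ?_ (fun j => ?_) j
    · exact der_mem k N K 0 (l 0) (hl 0)
    · exact der_mem k N K j.succ.succ (l j.succ.succ) (hl j.succ.succ)
  have hdet : ∀ M : Matrix (Fin (N + 1)) (Fin (N + 1)) K, (∀ i j, M i j ∈ VV k N K) →
      M.det ∈ VV k N K := by
    intro M hM
    rw [Matrix.det_apply]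
    refine (VV k N K).toSubring.sum_mem fun σ _ => ?_
    rw [Units.smul_def, zsmul_eq_mul]
    exact (VV k N K).toSubring.mul_mem (intCast_mem _ _)
      ((VV k N K).toSubring.prod_mem fun i _ => hM _ _)
  have hmem : ∀ ω : Form k K (N + 1), RegularAt ω S → ω L ∈ VV k N K := by
    intro ω hω
    refine Submodule.span_induction (p := fun η _ => (η : Form k K (N + 1)) L ∈ VV k N K)
      ?_ ?_ ?_ ?_ hω
    · rintro _ ⟨r, hr, rfl⟩
      exact hdet _ fun i j => hLV j _ (hS.1 _ (hr i))
    · exact (VV k N K).zero_mem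
    · intro x y _ _ h1 h2
      exact (VV k N K).add_mem _ _ h1 h2
    · intro a x _ h1
      exact (VV k N K).mul_mem _ _ (hS.1 _ a.2) h1
  have h1 : (xx k N K)⁻¹ * Matrix.det (Matrix.of fun i j => L j (rr k N K i)) ∈ VV k N K :=
    hmem _ hreg
  have h2 : (Matrix.of fun i j => L j (rr k N K i)) =
      (1 : Matrix (Fin (N + 1)) (Fin (N + 1)) K) := by
    ext i j
    rw [Matrix.of_apply]
    refine Fin.cases ?_ (fun i => ?_) i
    · refine Fin.cases ?_ (fun j => ?_) j
      · change l 0 (am k N K (X 0)) = _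
        rw [hl, pderiv_X_self, map_one, Matrix.one_apply_eq]
      · change l j.succ.succ (am k N K (X 0)) = _
        rw [hl, pderiv_X_of_ne (by
          intro h
          have := congrArg Fin.val h
          simp at this), map_zero, Matrix.one_apply_ne (Fin.succ_ne_zero j).symm]
    · refine Fin.cases ?_ (fun j => ?_) j
      · change l 0 (am k N K (X i.succ.succ)) = _
        rw [hl, pderiv_X_of_ne (by
          intro h
          have := congrArg Fin.val h
          simp at this), map_zero, Matrix.one_apply_ne (Fin.succ_ne_zero i)]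
      · change l j.succ.succ (am k N K (X i.succ.succ)) = _
        rw [hl]
        by_cases h : i = j
        · rw [h, pderiv_X_self, map_one, Matrix.one_apply_eq]
        · rw [pderiv_X_of_ne (by
            intro h'
            exact h (Fin.succ_injective _ (Fin.succ_injective _ h'))), map_zero,
            Matrix.one_apply_ne (fun h' => h (Fin.succ_injective _ h'))]
  rw [h2, Matrix.det_one, mul_one] at h1
  exact xx_inv_notMem k N K h1

theorem not_regularOn (p : ℕ) (Y : Variety k K) (hY : Y.ProperOver (RR k N K p)) :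
    ¬ Y.RegularOn (om k N K) := by
  intro h
  obtain ⟨S, hS, hVS⟩ := hY.2 (VV k N K) (RR_le_VV k N K p)
  exact not_regularAt k N K S hVS (h S hS)

theorem om_eq (p : ℕ) [CharP k p] : om k N K = -((yy k N K p)⁻¹ •
    wedge k (Fin.cons (yy k N K p) (tt k N K) : Fin (N + 1) → K)) := by
  have hx := xx_ne k N K
  have hy := yy_ne k N K p
  have hder : ∀ E : Derivation k K K, E (yy k N K p) =
      (-(yy k N K p) * (xx k N K)⁻¹) * E (xx k N K) := by
    intro E
    have h1 : xx k N K * E (yy k N K p) + yy k N K p * E (xx k N K) = 0 := by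
      have h2 := congrArg E (xy_eq k N K p)
      rw [Derivation.leibniz, Derivation.leibniz_pow] at h2
      have hp0 : (p : k) = 0 := CharP.cast_eq_zero k p
      rw [← Nat.cast_smul_eq_nsmul k, hp0, zero_smul] at h2
      exact h2
    field_simp
    linear_combination h1
  funext D
  change (xx k N K)⁻¹ * Matrix.det (Matrix.of fun i j => D j (rr k N K i)) =
    -((yy k N K p)⁻¹ * Matrix.det (Matrix.of fun i j => D j
      ((Fin.cons (yy k N K p) (tt k N K) : Fin (N + 1) → K) i)))
  have h3 : (Matrix.of fun i j => D j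
      ((Fin.cons (yy k N K p) (tt k N K) : Fin (N + 1) → K) i)) =
      Matrix.updateRow (Matrix.of fun i j => D j (rr k N K i)) 0
        ((-(yy k N K p) * (xx k N K)⁻¹) • (fun j => D j (xx k N K))) := by
    ext i j
    refine Fin.cases ?_ (fun i => ?_) i
    · rw [Matrix.updateRow_self]
      exact hder (D j)
    · rw [Matrix.updateRow_ne (Fin.succ_ne_zero i)]
      rfl
  rw [h3, Matrix.det_updateRow_smul]
  have h4 : Matrix.updateRow (Matrix.of fun i j => D j (rr k N K i)) 0
      (fun j => D j (xx k N K)) = Matrix.of fun i j => D j (rr k N K i) := by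
    ext i j
    refine Fin.cases ?_ (fun i => ?_) i
    · rw [Matrix.updateRow_self]
      rfl
    · rw [Matrix.updateRow_ne (Fin.succ_ne_zero i)]
  rw [h4]
  field_simp

theorem regularOnSmoothLocus_om (p : ℕ) [hpp : Fact p.Prime] [CharP k p] :
    RegularOnSmoothLocus (om k N K) (RR k N K p) := by
  rintro S ⟨P, hP⟩ hS
  have hp2 := hpp.out.two_le
  have ht : ∀ i, tt k N K i ∈ S := fun i => hP.le (tt_mem k N K p i)
  rcases inv_mem_of_formallySmooth k N K p S P hP hS with h | h
  · refine Submodule.smul_mem _ (⟨_, h⟩ : S) (Submodule.subset_span ⟨rr k N K, fun i => ?_, rfl⟩)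
    refine Fin.cases ?_ (fun i => ?_) i
    · exact hP.le (xx_mem k N K p)
    · exact ht i
  · rw [om_eq k N K p]
    refine Submodule.neg_mem _ (Submodule.smul_mem _ (⟨_, h⟩ : S)
      (Submodule.subset_span ⟨_, fun i => ?_, rfl⟩))
    refine Fin.cases ?_ (fun i => ?_) i
    · exact hP.le (yy_mem k N K p (by omega))
    · exact ht i

end

end Pool.Agent.TH193.FReg
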