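import Pool.Agent.TH193.FReg.Sing

/-! The toric resolution of `x y = z ^ p`. -/

open MvPolynomial
open scoped KaehlerDifferential

namespace Pool.Agent.TH193.FReg

universe u

/-- A valuation ring over `k` as a subalgebra. -/
def valSub {k K : Type u} [Field k] [Field K] [Algebra k K] (V : ValuationSubring K)
    (S : Subalgebra k K) (h : ∀ f ∈ S, f ∈ V) : Subalgebra k K where
  carrier := V
  mul_mem' := V.mul_mem _ _
  add_mem' := V.add_mem _ _
  algebraMap_mem' c := h _ (S.algebraMap_mem c)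

section

variable (k : Type u) [Field k] (N : ℕ) (K : Type u) [Field K] [Algebra k K]
  [Algebra (MvPolynomial (Fin (N + 2)) k) K] [IsScalarTower k (MvPolynomial (Fin (N + 2)) k) K]
  [IsFractionRing (MvPolynomial (Fin (N + 2)) k) K]

theorem le_aux {V : ValuationSubring K} {S T : Subalgebra k K} {i j : ℕ}
    (hS : IsPoint (chart k N K i) S) (hT : IsPoint (chart k N K j) T) (hVS : Dominates V S)
    (hVT : Dominates V T) : T ≤ S := by
  obtain ⟨P, hP⟩ := hS
  obtain ⟨Q, hQ⟩ := hT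
  refine le_of_dominates hQ hVS hVT ?_
  exact chart_le_of k N K (T := valSub V S hVS.1) (B := S)
    (fun f hf => hVS.1 f (hP.le hf)) (fun f hf => hVT.1 f (hQ.le hf)) hP.le hVS.2

/-- The resolution. -/
noncomputable def YY (p : ℕ) (hp : 1 ≤ p) : Variety k K where
  ι := Fin p
  finite_ι := inferInstance
  nonempty_ι := ⟨⟨0, hp⟩⟩
  chart j := chart k N K j
  isAffineVariety j := isAffineVariety_chart k N K p j j.2
  separated _ _ _ _ _ hS hT hVS hVT :=
    le_antisymm (le_aux k N K hT hS hVT hVS) (le_aux k N K hS hT hVS hVT)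

theorem properOver_YY (p : ℕ) (hp : 1 ≤ p) : (YY k N K p hp).ProperOver (RR k N K p) := by
  classical
  refine ⟨fun j => RR_le_chart k N K p (show Fin p from j) (show Fin p from j).2, fun V hV => ?_⟩
  have hex : ∃ j, vv k N K j ∈ V := by
    refine ⟨p - 1, ?_⟩
    have h1 : vv k N K (p - 1) = yy k N K p := by
      unfold vv yy
      rw [Nat.sub_add_cancel hp]
    rw [h1]
    exact hV _ (yy_mem k N K p hp)
  have hj := Nat.find_spec hex
  have hjp : Nat.find hex < p := by
    refine lt_of_le_of_lt (Nat.find_min' hex (m := p - 1) ?_) (by omega)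
    have h1 : vv k N K (p - 1) = yy k N K p := by
      unfold vv yy
      rw [Nat.sub_add_cancel hp]
    rw [h1]
    exact hV _ (yy_mem k N K p hp)
  have hmin := fun m => Nat.find_min hex (m := m)
  generalize Nat.find hex = j at hj hjp hmin
  have hw : ww k N K j ∈ V := by
    rcases Nat.eq_zero_or_pos j with rfl | hj0
    · have h1 : ww k N K 0 = xx k N K := by
        unfold ww
        rw [pow_zero, div_one]
      rw [h1]
      exact hV _ (xx_mem k N K p)
    · obtain ⟨i, rfl⟩ := Nat.exists_eq_add_of_le' hj0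
      have h1 : ww k N K (i + 1) = (vv k N K i)⁻¹ := by
        unfold ww vv
        rw [inv_div]
      rw [h1]
      rcases V.mem_or_inv_mem (vv k N K i) with h | h
      · exact absurd h (hmin i (Nat.lt_succ_self i))
      · exact h
  have hle : chart k N K j ≤ valSub V (RR k N K p) hV :=
    chart_le k N K hw hj fun i => hV _ (tt_mem k N K p i)
  obtain ⟨S, hS, hVS⟩ := exists_center (V := V) (A := chart k N K j) hle
  exact ⟨S, ⟨⟨j, hjp⟩, hS⟩, hVS⟩

theorem smooth_YY (p : ℕ) (hp : 1 ≤ p) (S : Subalgebra k K) (hS : (YY k N K p hp).HasPoint S) :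
    Algebra.FormallySmooth k S := by
  obtain ⟨j, P, hP⟩ := hS
  have : Algebra.FormallySmooth k ((YY k N K p hp).chart j) :=
    formallySmooth_chart k N K (show Fin p from j)
  exact hP.formallySmooth

theorem zz_inv_of_xx {j : ℕ} (hj0 : 1 ≤ j) {T : Subalgebra k K} (hT : chart k N K j ≤ T)
    (h : (xx k N K)⁻¹ ∈ T) : (zz k N K)⁻¹ ∈ T := by
  have hz := hT (zz_mem_chart k N K j)
  have hw := hT (ww_mem k N K j)
  have hw0 := ww_ne k N K j
  have hz0 := zz_ne k N K
  have hx := xx_eq k N K j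
  obtain ⟨i, rfl⟩ := Nat.exists_eq_add_of_le' hj0
  have e : (zz k N K)⁻¹ = (xx k N K)⁻¹ * (ww k N K (i + 1) * zz k N K ^ i) := by
    rw [hx, pow_succ]
    field_simp
  rw [e]
  exact T.mul_mem h (T.mul_mem hw (T.pow_mem hz _))

theorem zz_inv_of_yy {p j : ℕ} (hj : j + 1 < p) {T : Subalgebra k K} (hT : chart k N K j ≤ T)
    (h : (yy k N K p)⁻¹ ∈ T) : (zz k N K)⁻¹ ∈ T := by
  have hz := hT (zz_mem_chart k N K j)
  have hv := hT (vv_mem k N K j)
  have hv0 := vv_ne k N K j
  have hz0 := zz_ne k N K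
  have hy := yy_eq' k N K p j (by omega)
  obtain ⟨i, hi⟩ := Nat.exists_eq_add_of_le' (show 1 ≤ p - 1 - j by omega)
  have e : (zz k N K)⁻¹ = (yy k N K p)⁻¹ * (vv k N K j * zz k N K ^ i) := by
    rw [hy, hi, pow_succ]
    field_simp
  rw [e]
  exact T.mul_mem h (T.mul_mem hv (T.pow_mem hz _))

/-- In the ring `T ≥ chart j`, the vertex is avoided if and only if the exceptional coordinates of
the chart are invertible. -/
theorem exc_iff (p j : ℕ) (hp : 2 ≤ p) (hj : j < p) {T : Subalgebra k K}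
    (hT : chart k N K j ≤ T) :
    ((xx k N K)⁻¹ ∈ T ∨ (yy k N K p)⁻¹ ∈ T) ↔
      ((j + 1 < p → (ww k N K j)⁻¹ ∈ T) ∧ (1 ≤ j → (vv k N K j)⁻¹ ∈ T)) := by
  have hz := hT (zz_mem_chart k N K j)
  have hw := hT (ww_mem k N K j)
  have hv := hT (vv_mem k N K j)
  have hw0 := ww_ne k N K j
  have hv0 := vv_ne k N K j
  have hz0 := zz_ne k N K
  have hx := xx_eq k N K j
  have hy := yy_eq' k N K p j hj
  have hwv := wv_eq k N K j
  have hwz : (zz k N K)⁻¹ ∈ T → (ww k N K j)⁻¹ ∈ T := by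
    intro h
    have e : (ww k N K j)⁻¹ = vv k N K j * (zz k N K)⁻¹ := by
      rw [← hwv]
      field_simp
    rw [e]
    exact T.mul_mem hv h
  have hvz : (zz k N K)⁻¹ ∈ T → (vv k N K j)⁻¹ ∈ T := by
    intro h
    have e : (vv k N K j)⁻¹ = ww k N K j * (zz k N K)⁻¹ := by
      rw [← hwv]
      field_simp
    rw [e]
    exact T.mul_mem hw h
  have hwx : (xx k N K)⁻¹ ∈ T → (ww k N K j)⁻¹ ∈ T := by
    intro h
    have e : (ww k N K j)⁻¹ = zz k N K ^ j * (xx k N K)⁻¹ := by
      rw [hx]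
      field_simp
    rw [e]
    exact T.mul_mem (T.pow_mem hz _) h
  have hvy : (yy k N K p)⁻¹ ∈ T → (vv k N K j)⁻¹ ∈ T := by
    intro h
    have e : (vv k N K j)⁻¹ = zz k N K ^ (p - 1 - j) * (yy k N K p)⁻¹ := by
      rw [hy]
      field_simp
    rw [e]
    exact T.mul_mem (T.pow_mem hz _) h
  constructor
  · rintro (h | h)
    · exact ⟨fun _ => hwx h, fun hj0 => hvz (zz_inv_of_xx k N K hj0 hT h)⟩
    · exact ⟨fun hj0 => hwz (zz_inv_of_yy k N K hj0 hT h), fun _ => hvy h⟩
  · rintro ⟨h1, h2⟩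
    have hzinv : (ww k N K j)⁻¹ ∈ T → (vv k N K j)⁻¹ ∈ T → (zz k N K)⁻¹ ∈ T := by
      intro h h'
      rw [← hwv, mul_inv]
      exact T.mul_mem h h'
    by_cases hj0 : j = 0
    · left
      rw [hx, hj0, pow_zero, mul_one, ← hj0]
      exact h1 (by omega)
    · have h4 := h2 (Nat.one_le_iff_ne_zero.2 hj0)
      by_cases hjp : j + 1 < p
      · left
        rw [hx, mul_inv, ← inv_pow]
        exact T.mul_mem (h1 hjp) (T.pow_mem (hzinv (h1 hjp) h4) _)
      · right
        rw [hy, show p - 1 - j = 0 by omega, pow_zero, mul_one]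
        exact h4

/-- The ring of fractions of the coordinate ring with denominators invertible in `T`. -/
noncomputable def fracSub {k K : Type u} [Field k] [Field K] [Algebra k K]
    (R T : Subalgebra k K) : Subalgebra k K where
  carrier := {f | ∃ a ∈ R, ∃ s ∈ R, s ≠ 0 ∧ s⁻¹ ∈ T ∧ f = a / s}
  mul_mem' := by
    rintro _ _ ⟨a, ha, s, hs, hs0, hs1, rfl⟩ ⟨b, hb, t, ht, ht0, ht1, rfl⟩
    refine ⟨a * b, R.mul_mem ha hb, s * t, R.mul_mem hs ht, mul_ne_zero hs0 ht0, ?_, ?_⟩
    · rw [mul_inv]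
      exact T.mul_mem hs1 ht1
    · rw [div_mul_div_comm]
  add_mem' := by
    rintro _ _ ⟨a, ha, s, hs, hs0, hs1, rfl⟩ ⟨b, hb, t, ht, ht0, ht1, rfl⟩
    refine ⟨a * t + s * b, R.add_mem (R.mul_mem ha ht) (R.mul_mem hs hb), s * t,
      R.mul_mem hs ht, mul_ne_zero hs0 ht0, ?_, ?_⟩
    · rw [mul_inv]
      exact T.mul_mem hs1 ht1
    · rw [div_add_div _ _ hs0 ht0]
  algebraMap_mem' c := ⟨_, R.algebraMap_mem c, 1, R.one_mem, one_ne_zero, by
    rw [inv_one]; exact T.one_mem, by rw [div_one]⟩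

theorem mem_fracSub {k K : Type u} [Field k] [Field K] [Algebra k K]
    {R T : Subalgebra k K} {f : K} (hf : f ∈ R) : f ∈ fracSub R T :=
  ⟨f, hf, 1, R.one_mem, one_ne_zero, by rw [inv_one]; exact T.one_mem, by rw [div_one]⟩

theorem isPoint_of_inv_mem (p : ℕ) (hp : 1 ≤ p) {j j' : ℕ} (hj : j < p)
    {T : Subalgebra k K} (hT : IsPoint (chart k N K j') T) (hjT : chart k N K j ≤ T)
    (h : (xx k N K)⁻¹ ∈ T ∨ (yy k N K p)⁻¹ ∈ T) : IsPoint (RR k N K p) T := by
  obtain ⟨Q, hQ⟩ := hT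
  have hloc := hQ.isLocalRing
  have hRT : RR k N K p ≤ T := (RR_le_chart k N K p j hj).trans hjT
  have hz0 := zz_ne k N K
  have hx0 := xx_ne k N K
  have hy0 := yy_ne k N K p
  have hzR := zz_mem k N K p
  have hxR := xx_mem k N K p
  have hyR := yy_mem k N K p hp
  have hx := xx_eq k N K j
  have hy := yy_eq' k N K p j hj
  have hjB : chart k N K j ≤ fracSub (RR k N K p) T := by
    refine chart_le k N K ?_ ?_ fun i => mem_fracSub (tt_mem k N K p i)
    · rcases h with h | h
      · refine ⟨_, hxR, zz k N K ^ j, Subalgebra.pow_mem _ hzR _, pow_ne_zero _ hz0, ?_, rfl⟩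
        rcases Nat.eq_zero_or_pos j with rfl | hj0
        · rw [pow_zero, inv_one]
          exact T.one_mem
        · rw [← inv_pow]
          exact T.pow_mem (zz_inv_of_xx k N K hj0 hjT h) _
      · refine ⟨zz k N K ^ (p - j), Subalgebra.pow_mem _ hzR _, _, hyR, hy0, h, ?_⟩
        have e : yy k N K p * xx k N K = zz k N K ^ (p - j) * zz k N K ^ j := by
          rw [mul_comm, xy_eq, ← pow_add]
          congr 1
          omega
        unfold ww
        rw [div_eq_div_iff (pow_ne_zero _ hz0) hy0]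
        linear_combination e
    · rcases h with h | h
      · exact ⟨_, Subalgebra.pow_mem _ hzR _, _, hxR, hx0, h, rfl⟩
      · refine ⟨_, hyR, zz k N K ^ (p - 1 - j), Subalgebra.pow_mem _ hzR _, pow_ne_zero _ hz0,
          ?_, ?_⟩
        · rcases Nat.eq_zero_or_pos (p - 1 - j) with hj0 | hj0
          · rw [hj0, pow_zero, inv_one]
            exact T.one_mem
          · rw [← inv_pow]
            exact T.pow_mem (zz_inv_of_yy k N K (by omega) hjT h) _
        · rw [hy]
          field_simp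
  have hj'B : chart k N K j' ≤ fracSub (RR k N K p) T := by
    refine chart_le_of k N K hjT hQ.le hjB ?_
    rintro _ ⟨a, ha, s, hs, hs0, hs1, rfl⟩ hinv
    by_cases ha0 : a = 0
    · rw [ha0, zero_div, inv_zero]
      exact Subalgebra.zero_mem _
    · refine ⟨s, hs, a, ha, ha0, ?_, by rw [inv_div]⟩
      have e : a⁻¹ = (a / s)⁻¹ * s⁻¹ := by
        field_simp
      rw [e]
      exact T.mul_mem hinv hs1
  exact ⟨_, isLocalRingAt_of_le hQ hRT fun f hf => hj'B hf⟩

end

end Pool.Agent.TH193.FReg
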