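import Pool.Agent.TH193.FReg.Charts

/-! The points over the vertex are not smooth. -/

open MvPolynomial
open scoped KaehlerDifferential

namespace Pool.Agent.TH193.FReg

universe u

section

variable (k : Type u) [Field k] (N : ℕ) (K : Type u) [Field K] [Algebra k K]
  [Algebra (MvPolynomial (Fin (N + 2)) k) K] [IsScalarTower k (MvPolynomial (Fin (N + 2)) k) K]
  [IsFractionRing (MvPolynomial (Fin (N + 2)) k) K]

/-- evaluation at `x = z / x = 0` -/
noncomputable def ev (p : ℕ) : MvPolynomial (Fin (N + 2)) k →ₐ[k] RR k N K p :=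
  aeval (Fin.cons 0 (Fin.cons 0 fun i => ⟨tt k N K i, tt_mem k N K p i⟩))

theorem ev_X0 (p : ℕ) : ev k N K p (X 0) = 0 := by
  unfold ev
  rw [aeval_X]
  rfl

theorem ev_X1 (p : ℕ) : ev k N K p (X 1) = 0 := by
  unfold ev
  rw [aeval_X]
  rfl

theorem ev_Xt (p : ℕ) (i : Fin N) :
    ev k N K p (X i.succ.succ) = ⟨tt k N K i, tt_mem k N K p i⟩ := by
  unfold ev
  rw [aeval_X]
  rfl

/-- the coordinate ring as a monomial algebra -/
noncomputable def eR (p : ℕ) : monAlg k (lf N p) ≃ₐ[k] RR k N K p :=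
  Subalgebra.equivMapOfInjective _ (am k N K) (am_injective k N K)

theorem eR_apply (p : ℕ) (f : monAlg k (lf N p)) : (eR k N K p f : K) = am k N K f := rfl

theorem eR_symm (p : ℕ) (r : RR k N K p) (f : MvPolynomial (Fin (N + 2)) k)
    (h : (r : K) = am k N K f) :
    (((eR k N K p).symm r : monAlg k (lf N p)) : MvPolynomial (Fin (N + 2)) k) = f := by
  apply am_injective k N K
  rw [← h, ← eR_apply, AlgEquiv.apply_symm_apply]

theorem ev_ne_zero (p : ℕ) (f : MvPolynomial (Fin (N + 2)) k) (h : ev k N K p f ≠ 0) :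
    ∃ δ, coeff δ f ≠ 0 ∧ δ 0 = 0 ∧ δ 1 = 0 := by
  by_contra hcon
  push Not at hcon
  apply h
  rw [f.as_sum, map_sum]
  refine Finset.sum_eq_zero fun δ hδ => ?_
  have h1 := hcon δ (mem_support_iff.1 hδ)
  rw [monomial_eq', map_mul, map_mul, map_mul, map_pow, map_pow, ev_X0, ev_X1]
  by_cases h0 : δ 0 = 0
  · rw [zero_pow (h1 h0)]
    simp
  · rw [zero_pow h0]
    simp

theorem not_dvd (p : ℕ) (hp : 2 ≤ p) (a b : RR k N K p)
    (hb : ev k N K p ((eR k N K p).symm b : monAlg k (lf N p)) ≠ 0)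
    (h : (b : K) * yy k N K p = xx k N K * a) : False := by
  obtain ⟨q, rfl⟩ := Nat.exists_eq_add_of_le' hp
  obtain ⟨fa, hfa⟩ : ∃ f : MvPolynomial (Fin (N + 2)) k,
      f = ((eR k N K (q + 2)).symm a : monAlg k (lf N (q + 2))) := ⟨_, rfl⟩
  obtain ⟨fb, hfb⟩ : ∃ f : MvPolynomial (Fin (N + 2)) k,
      f = ((eR k N K (q + 2)).symm b : monAlg k (lf N (q + 2))) := ⟨_, rfl⟩
  rw [← hfb] at hb
  have ha' : (a : K) = am k N K fa := by
    rw [hfa, ← eR_apply, AlgEquiv.apply_symm_apply]
  have hb' : (b : K) = am k N K fb := by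
    rw [hfb, ← eR_apply, AlgEquiv.apply_symm_apply]
  have h1 : X 0 * (monomial (Finsupp.single 0 q + Finsupp.single 1 (q + 2)) 1 * fb) =
      X 0 * fa := by
    apply am_injective k N K
    rw [map_mul (am k N K) (X 0) fa, ← ha']
    change _ = xx k N K * a
    rw [← h, hb', yy_eq k N K (q + 2) (by omega), ← map_mul]
    congr 1
    rw [show (monomial (Finsupp.single 0 q + Finsupp.single 1 (q + 2)) 1 :
        MvPolynomial (Fin (N + 2)) k) = X 0 ^ q * X 1 ^ (q + 2) by
      rw [X_pow_eq_monomial, X_pow_eq_monomial, monomial_mul, one_mul]]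
    rw [show q + 2 - 1 = q + 1 by omega]
    ring
  have h2 := mul_left_cancel₀ (X_ne_zero 0) h1
  obtain ⟨δ, hδ, h0, h1⟩ := ev_ne_zero k N K (q + 2) fb hb
  have h3 : coeff (Finsupp.single 0 q + Finsupp.single 1 (q + 2) + δ) fa = coeff δ fb := by
    rw [← h2, coeff_monomial_mul, one_mul]
  have h4 := ((eR k N K (q + 2)).symm a).2 (Finsupp.single 0 q + Finsupp.single 1 (q + 2) + δ)
    (by rw [← hfa, h3]; exact hδ)
  change (0 : ℤ) ≤ (q + 2 : ℕ) *
    ((Finsupp.single 0 q + Finsupp.single 1 (q + 2) + δ : Fin (N + 2) →₀ ℕ) 0 : ℤ) -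
    ((q + 2 : ℕ) - 1) *
      ((Finsupp.single 0 q + Finsupp.single 1 (q + 2) + δ : Fin (N + 2) →₀ ℕ) 1 : ℤ) at h4
  simp only [Finsupp.add_apply, Finsupp.single_apply, h0, h1] at h4
  simp at h4
  nlinarith

end

/-- The points of `x y = z ^ p` over the vertex are singular. -/
theorem inv_mem_of_formallySmooth (k : Type u) [Field k] (N : ℕ) (K : Type u) [Field K]
    [Algebra k K] [Algebra (MvPolynomial (Fin (N + 2)) k) K]
    [IsScalarTower k (MvPolynomial (Fin (N + 2)) k) K]
    [IsFractionRing (MvPolynomial (Fin (N + 2)) k) K] (p : ℕ) [Fact p.Prime] [CharP k p]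
    (S : Subalgebra k K) (P : Ideal (RR k N K p)) (h : IsLocalRingAt (RR k N K p) P S)
    (hS : Algebra.FormallySmooth k S) : (xx k N K)⁻¹ ∈ S ∨ (yy k N K p)⁻¹ ∈ S := by
  have hp1 : 1 ≤ p := (Fact.out : p.Prime).one_le
  by_contra hcon
  push Not at hcon
  let x : RR k N K p := ⟨xx k N K, xx_mem k N K p⟩
  let y : RR k N K p := ⟨yy k N K p, yy_mem k N K p hp1⟩
  let z : RR k N K p := ⟨zz k N K, zz_mem k N K p⟩
  have hxy : x * y = z ^ p := Subtype.ext (xy_eq k N K p)
  have hxP : x ∈ P := by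
    by_contra h'
    exact hcon.1 (h.inv_mem h')
  have hyP : y ∈ P := by
    by_contra h'
    exact hcon.2 (h.inv_mem h')
  have hPp := h.1
  have hzP : z ∈ P := hPp.mem_of_pow_mem p (hxy ▸ P.mul_mem_left x hyP)
  have hloc : IsLocalRing S := h.isLocalRing
  let algRS : Algebra (RR k N K p) S := (Subalgebra.inclusion h.le).toRingHom.toAlgebra
  have hL : IsLocalization.AtPrime S P := h.isLocalization
  let κ := IsLocalRing.ResidueField S
  let algRκ : Algebra (RR k N K p) κ :=
    ((algebraMap S κ).comp (algebraMap (RR k N K p) S)).toAlgebra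
  have : IsScalarTower (RR k N K p) S κ := IsScalarTower.of_algebraMap_eq fun c => rfl
  have : IsScalarTower k (RR k N K p) S := IsScalarTower.of_algebraMap_eq fun c => rfl
  have : IsScalarTower k (RR k N K p) κ := IsScalarTower.of_algebraMap_eq fun c => by
    change algebraMap k κ c = algebraMap S κ (algebraMap (RR k N K p) S (algebraMap k _ c))
    rw [← IsScalarTower.algebraMap_apply k (RR k N K p) S c, ← IsScalarTower.algebraMap_apply k S κ]
  -- the residue map kills the vertex
  have hres0 : ∀ r : RR k N K p, algebraMap (RR k N K p) κ r = 0 ↔ r ∈ P := by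
    intro r
    change algebraMap S κ (algebraMap (RR k N K p) S r) = 0 ↔ _
    rw [IsLocalRing.ResidueField.algebraMap_eq, IsLocalRing.residue_eq_zero_iff,
      IsLocalRing.mem_maximalIdeal, mem_nonunits_iff,
      IsLocalization.AtPrime.isUnit_to_map_iff S P]
    simp [Ideal.primeCompl]
  let φ1 : RR k N K p →ₐ[k] κ := IsScalarTower.toAlgHom k (RR k N K p) κ
  let φ2 : RR k N K p →ₐ[k] κ := φ1.comp ((ev k N K p).comp
    ((monAlg k (lf N p)).val.comp ((eR k N K p).symm : RR k N K p →ₐ[k] monAlg k (lf N p))))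
  have hφ2 : ∀ (r : RR k N K p) (f : MvPolynomial (Fin (N + 2)) k), (r : K) = am k N K f →
      φ2 r = φ1 (ev k N K p f) := by
    intro r f hrf
    change φ1 (ev k N K p ((eR k N K p).symm r : monAlg k (lf N p))) = _
    rw [eR_symm k N K p r f hrf]
  have hφ1 : ∀ r : RR k N K p, r ∈ P → φ1 r = 0 := fun r hr => (hres0 r).2 hr
  have hφ12 : ∀ r : RR k N K p, φ1 r = φ2 r := by
    rintro ⟨r, hr⟩
    have hr' : r ∈ Algebra.adjoin k (genR k N K p) := by
      rw [← RR_eq_adjoin k N K p hp1]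
      exact hr
    have hle : ∀ {s : K}, s ∈ Algebra.adjoin k (genR k N K p) → s ∈ RR k N K p := by
      intro s hs
      rw [RR_eq_adjoin k N K p hp1]
      exact hs
    change φ1 ⟨r, hle hr'⟩ = φ2 ⟨r, hle hr'⟩
    induction hr' using Algebra.adjoin_induction with
    | mem s hs =>
      rcases hs with (rfl | rfl | rfl) | ⟨i, rfl⟩
      · rw [hφ2 _ (X 0) rfl, ev_X0, map_zero]
        exact hφ1 _ hxP
      · rw [hφ2 _ (X 0 * X 1) (by rw [map_mul]; rfl), map_mul, ev_X0, zero_mul, map_zero]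
        exact hφ1 _ hzP
      · rw [hφ2 _ (X 0 ^ (p - 1) * X 1 ^ p) (yy_eq k N K p hp1), map_mul, map_pow, map_pow, ev_X1,
          zero_pow (by omega), mul_zero, map_zero]
        exact hφ1 _ hyP
      · rw [hφ2 _ (X i.succ.succ) rfl, ev_Xt]
    | algebraMap c =>
      have : (⟨algebraMap k K c, hle (Subalgebra.algebraMap_mem _ c)⟩ : RR k N K p) =
        algebraMap k _ c := rfl
      rw [this, AlgHom.commutes, AlgHom.commutes]
    | add s t hs ht h1 h2 =>
      have : (⟨s + t, hle (Subalgebra.add_mem _ hs ht)⟩ : RR k N K p) =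
        ⟨s, hle hs⟩ + ⟨t, hle ht⟩ := rfl
      rw [this, map_add, map_add, h1, h2]
      · exact hle ht
      · exact hle hs
    | mul s t hs ht h1 h2 =>
      have : (⟨s * t, hle (Subalgebra.mul_mem _ hs ht)⟩ : RR k N K p) =
        ⟨s, hle hs⟩ * ⟨t, hle ht⟩ := rfl
      rw [this, map_mul, map_mul, h1, h2]
      · exact hle ht
      · exact hle hs
  -- the derivation `∂ / ∂ x`
  let E : Derivation k (RR k N K p) κ := Derivation.mk'
    { toFun := fun r => φ1 (ev k N K p (pderiv 0
        ((eR k N K p).symm r : MvPolynomial (Fin (N + 2)) k)))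
      map_add' := fun a b => by
        rw [map_add, Subalgebra.coe_add, map_add, map_add, map_add]
      map_smul' := fun c a => by
        rw [map_smul, Subalgebra.coe_smul, Derivation.map_smul, map_smul, map_smul]
        rfl }
    (fun a b => by
      change φ1 (ev k N K p (pderiv 0
        ((eR k N K p).symm (a * b) : MvPolynomial (Fin (N + 2)) k))) =
        φ1 a * φ1 (ev k N K p (pderiv 0 ((eR k N K p).symm b : MvPolynomial (Fin (N + 2)) k))) +
        φ1 b * φ1 (ev k N K p (pderiv 0 ((eR k N K p).symm a : MvPolynomial (Fin (N + 2)) k)))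
      rw [map_mul, Subalgebra.coe_mul, Derivation.leibniz, map_add, map_add, smul_eq_mul,
        smul_eq_mul, map_mul, map_mul, map_mul, map_mul, hφ12 a, hφ12 b]
      rfl)
  obtain ⟨l, hl⟩ := exists_extension (k := k) (RR k N K p) S κ P.primeCompl E
  have hEx : E x = 1 := by
    change φ1 (ev k N K p (pderiv 0 ((eR k N K p).symm x : MvPolynomial (Fin (N + 2)) k))) = 1
    rw [eR_symm k N K p x (X 0) rfl, pderiv_X_self, map_one, map_one]
  have hproj : Module.Projective S Ω[S⁄k] := Algebra.FormallySmooth.projective_kaehlerDifferential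
  have hrel : (algebraMap (RR k N K p) S x) • KaehlerDifferential.D k S
      (algebraMap (RR k N K p) S y) + (algebraMap (RR k N K p) S y) • KaehlerDifferential.D k S
      (algebraMap (RR k N K p) S x) = 0 := by
    rw [← Derivation.leibniz, ← map_mul, hxy, map_pow, Derivation.leibniz_pow]
    have hp0 : (p : k) = 0 := CharP.cast_eq_zero k p
    rw [← Nat.cast_smul_eq_nsmul k, hp0, zero_smul]
  obtain ⟨s, hs⟩ := dvd_of_projective (algebraMap (RR k N K p) S x) (algebraMap (RR k N K p) S y)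
    hrel l (by rw [hl, hEx]; exact one_ne_zero)
  obtain ⟨a, b, hb, e⟩ := (h.2 s).1 s.2
  have hb0 := h.ne_zero hb
  refine not_dvd k N K p (Fact.out : p.Prime).two_le a b ?_ ?_
  · intro h0
    apply hb
    rw [← hres0]
    change φ1 b = 0
    rw [hφ12 b]
    change φ1 (ev k N K p ((eR k N K p).symm b : monAlg k (lf N p))) = 0
    rw [h0, map_zero]
  · have h1 : yy k N K p = xx k N K * s := congrArg (fun t : S => (t : K)) hs
    rw [h1, e]
    field_simp

end Pool.Agent.TH193.FReg
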